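import Mathlib

/-!
# Instance-specific sample complexity of Hellinger identity testing

For a distribution `q` on `[n]` let `N(q, t)` be the smallest size of a nonempty set of `q`-mass at
least `1 - t` (the number of entries that survive when the smallest entries of total mass at most
`t` are removed).  The main result: up to absolute constants, also inside `N`, the number of samples
needed for Hellinger identity testing to `q` is `√N(q, ε²) / ε²`.
-/

namespace Pool.Agent.Results.MP_8f5189_lc.HellingerIdentity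
open Finset

/-- `p` is a probability distribution on `[n]`. -/
def IsDist {n : ℕ} (p : Fin n → ℝ) : Prop := (∀ i, 0 ≤ p i) ∧ ∑ i, p i = 1

/-- The Hellinger distance `(1/√2) ‖√p - √q‖₂`. -/
noncomputable def dH {n : ℕ} (p q : Fin n → ℝ) : ℝ :=
  (1 / √2) * √(∑ i, (√(p i) - √(q i)) ^ 2)

/-- Probability that the randomized test `φ` (acceptance probability `φ x` on the sample
sequence `x`) accepts when it is fed `s` iid samples from `p`. -/
noncomputable def acceptProb {n s : ℕ} (φ : (Fin s → Fin n) → ℝ) (p : Fin n → ℝ) : ℝ :=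
  ∑ x : Fin s → Fin n, (∏ j, p (x j)) * φ x

/-- `φ` is a randomized identity tester for `q` with proximity `ε` in Hellinger distance that
uses `s` samples: it accepts `q` with probability at least `2/3` and rejects with probability at
least `2/3` every distribution at Hellinger distance more than `ε` from `q`. -/
def IsTester {n : ℕ} (q : Fin n → ℝ) (ε : ℝ) (s : ℕ) (φ : (Fin s → Fin n) → ℝ) : Prop :=
  (∀ x, 0 ≤ φ x ∧ φ x ≤ 1) ∧ 2 / 3 ≤ acceptProb φ q ∧
    ∀ p, IsDist p → ε < dH p q → 2 / 3 ≤ 1 - acceptProb φ p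

/-- The instance-specific sample complexity `Ψ_H(q, ε)`: least number of samples of a tester. -/
noncomputable def PsiH {n : ℕ} (q : Fin n → ℝ) (ε : ℝ) : ℕ :=
  sInf {s | ∃ φ : (Fin s → Fin n) → ℝ, IsTester q ε s φ}

/-- `N(q, t)`: the least size of a nonempty set of `q`-mass at least `1 - t`. -/
noncomputable def effSupp {n : ℕ} (q : Fin n → ℝ) (t : ℝ) : ℕ :=
  sInf {k | ∃ A : Finset (Fin n), A.Nonempty ∧ A.card = k ∧ 1 - t ≤ ∑ i ∈ A, q i}

section Expect

variable {α : Type*} [Fintype α]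

/-- expectation of `F` over `s` iid samples from `p` -/
noncomputable def Ex (p : α → ℝ) (s : ℕ) (F : (Fin s → α) → ℝ) : ℝ :=
  ∑ x : Fin s → α, (∏ j, p (x j)) * F x

lemma Ex_zero (p : α → ℝ) (F : (Fin 0 → α) → ℝ) : Ex p 0 F = F Fin.elim0 := by
  unfold Ex
  have : ∀ x : Fin 0 → α, x = Fin.elim0 := fun x => Subsingleton.elim _ _
  rw [Fintype.sum_eq_single (Fin.elim0 : Fin 0 → α) (fun x hx => absurd (this x) hx)]
  simp

lemma Ex_succ (p : α → ℝ) (s : ℕ) (F : (Fin (s + 1) → α) → ℝ) :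
    Ex p (s + 1) F = ∑ a, p a * Ex p s (fun x => F (Fin.cons a x)) := by
  unfold Ex
  rw [← (Fin.consEquiv (fun _ : Fin (s + 1) => α)).sum_comp, Fintype.sum_prod_type]
  refine Finset.sum_congr rfl fun a _ => ?_
  rw [Finset.mul_sum]
  refine Finset.sum_congr rfl fun x _ => ?_
  have h : (Fin.consEquiv (fun _ : Fin (s + 1) => α)) (a, x) = Fin.cons a x := rfl
  simp only [h, Fin.prod_univ_succ, Fin.cons_zero, Fin.cons_succ]
  ring

lemma Ex_add (p : α → ℝ) (s : ℕ) (F G : (Fin s → α) → ℝ) :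
    Ex p s (fun x => F x + G x) = Ex p s F + Ex p s G := by
  unfold Ex
  rw [← Finset.sum_add_distrib]
  exact Finset.sum_congr rfl fun x _ => by ring

lemma Ex_mul_left (p : α → ℝ) (s : ℕ) (c : ℝ) (F : (Fin s → α) → ℝ) :
    Ex p s (fun x => c * F x) = c * Ex p s F := by
  unfold Ex
  rw [Finset.mul_sum]
  exact Finset.sum_congr rfl fun x _ => by ring

lemma Ex_const {p : α → ℝ} (hp : ∑ a, p a = 1) (s : ℕ) (c : ℝ) :
    Ex p s (fun _ => c) = c := by
  unfold Ex
  rw [← Finset.sum_mul, ← Fintype.sum_pow, hp]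
  simp

lemma Ex_sum_comm {β : Type*} (t : Finset β) (p : α → ℝ) (s : ℕ) (F : β → (Fin s → α) → ℝ) :
    Ex p s (fun x => ∑ b ∈ t, F b x) = ∑ b ∈ t, Ex p s (F b) := by
  unfold Ex
  rw [Finset.sum_comm]
  exact Finset.sum_congr rfl fun x _ => by rw [Finset.mul_sum]

lemma Ex_mono {p : α → ℝ} (hp : ∀ a, 0 ≤ p a) (s : ℕ) {F G : (Fin s → α) → ℝ}
    (h : ∀ x, F x ≤ G x) : Ex p s F ≤ Ex p s G := by
  unfold Ex
  exact Finset.sum_le_sum fun x _ =>
    mul_le_mul_of_nonneg_left (h x) (Finset.prod_nonneg fun j _ => hp _)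

lemma Ex_sum {p : α → ℝ} (hp : ∑ a, p a = 1) (f : α → ℝ) (s : ℕ) :
    Ex p s (fun x => ∑ j, f (x j)) = s * ∑ a, p a * f a := by
  induction s with
  | zero => rw [Ex_zero]; simp
  | succ s ih =>
    rw [Ex_succ]
    simp only [Fin.sum_univ_succ, Fin.cons_zero, Fin.cons_succ]
    have : ∀ a, Ex p s (fun x => f a + ∑ j, f (x j)) = f a + s * ∑ a, p a * f a := by
      intro a
      rw [Ex_add, Ex_const hp, ih]
    simp only [this, mul_add, Finset.sum_add_distrib, ← Finset.sum_mul, hp]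
    push_cast
    ring

lemma Ex_sum_sq {p : α → ℝ} (hp : ∑ a, p a = 1) (f : α → ℝ) (s : ℕ) :
    Ex p s (fun x => (∑ j, f (x j)) ^ 2) =
      s * ∑ a, p a * f a ^ 2 + s * (s - 1) * (∑ a, p a * f a) ^ 2 := by
  induction s with
  | zero => rw [Ex_zero]; simp
  | succ s ih =>
    rw [Ex_succ]
    simp only [Fin.sum_univ_succ, Fin.cons_zero, Fin.cons_succ]
    have : ∀ a, Ex p s (fun x => (f a + ∑ j, f (x j)) ^ 2) =
        f a ^ 2 + 2 * f a * (s * ∑ a, p a * f a) + (s * ∑ a, p a * f a ^ 2 + s * (s - 1) * (∑ a, p a * f a) ^ 2) := by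
      intro a
      have h1 : (fun x : Fin s → α => (f a + ∑ j, f (x j)) ^ 2) =
          fun x => (f a ^ 2 + (2 * f a) * ∑ j, f (x j)) + (∑ j, f (x j)) ^ 2 := by
        funext x; ring
      rw [h1, Ex_add, Ex_add, Ex_const hp, Ex_mul_left, Ex_sum hp, ih]
    simp only [this, mul_add, Finset.sum_add_distrib, ← Finset.sum_mul, hp]
    have h2 : ∑ a, p a * (2 * f a * (s * ∑ a, p a * f a)) = 2 * s * (∑ a, p a * f a) ^ 2 := by
      have : ∀ a, p a * (2 * f a * (s * ∑ a, p a * f a)) = (p a * f a) * (2 * s * ∑ a, p a * f a) := by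
        intro a; ring
      simp only [this, ← Finset.sum_mul]
      ring
    rw [h2]
    push_cast
    ring

/-- splitting a batch of `s + t` samples -/
lemma Ex_append (p : α → ℝ) (s t : ℕ) (F : (Fin (s + t) → α) → ℝ) :
    Ex p (s + t) F = Ex p s (fun x => Ex p t (fun y => F (Fin.append x y))) := by
  unfold Ex
  rw [← (Fin.appendEquiv s t).sum_comp, Fintype.sum_prod_type]
  refine Finset.sum_congr rfl fun x _ => ?_
  rw [Finset.mul_sum]
  refine Finset.sum_congr rfl fun y _ => ?_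
  simp only [Fin.appendEquiv, Equiv.coe_fn_mk, Fin.prod_univ_add, Fin.append_left, Fin.append_right]
  ring

end Expect

section Kernel

variable {α : Type*} [Fintype α] [DecidableEq α]

noncomputable def ind (A : Finset α) (x : α) : ℝ := if x ∈ A then 1 else 0

/-- the chi-square kernel restricted to `A` -/
noncomputable def hk (q : α → ℝ) (A : Finset α) (x y : α) : ℝ :=
  (if x = y then ind A x / q x else 0) - ind A x - ind A y + ∑ i ∈ A, q i

noncomputable def gk (p q : α → ℝ) (A : Finset α) (x : α) : ℝ :=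
  ind A x * ((p x - q x) / q x) - ∑ i ∈ A, (p i - q i)

noncomputable def chi (p q : α → ℝ) (A : Finset α) : ℝ := ∑ i ∈ A, (p i - q i) ^ 2 / q i

lemma sum_ind (A : Finset α) (f : α → ℝ) : ∑ x, f x * ind A x = ∑ x ∈ A, f x := by
  unfold ind
  simp [Finset.sum_ite_mem]

omit [Fintype α] in
lemma hk_symm (q : α → ℝ) (A : Finset α) (x y : α) : hk q A x y = hk q A y x := by
  unfold hk
  by_cases h : x = y
  · subst h; rfl
  · have h' : ¬ y = x := fun e => h e.symm
    simp only [h, h', if_false]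
    ring

lemma sum_hk {p q : α → ℝ} (hp : ∑ a, p a = 1) {A : Finset α} (hq : ∀ i ∈ A, 0 < q i) (x : α) :
    ∑ a, p a * hk q A x a = gk p q A x := by
  unfold hk gk
  have h1 : ∀ a, p a * ((if x = a then ind A x / q x else 0) - ind A x - ind A a + ∑ i ∈ A, q i)
      = (if x = a then p a * (ind A x / q x) else 0) - p a * ind A x - p a * ind A a
        + p a * ∑ i ∈ A, q i := by
    intro a
    split_ifs <;> ring
  simp only [h1, Finset.sum_add_distrib, Finset.sum_sub_distrib, ← Finset.sum_mul, hp, sum_ind]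
  rw [Finset.sum_ite_eq]
  simp only [Finset.mem_univ, if_true]
  by_cases hx : x ∈ A
  · have := (hq x hx).ne'
    simp only [ind, hx, if_true]
    field_simp
    ring
  · simp only [ind, hx, if_false]
    ring

lemma sum_gk {p q : α → ℝ} (hp : ∑ a, p a = 1) {A : Finset α} (hq : ∀ i ∈ A, 0 < q i) :
    ∑ a, p a * gk p q A a = chi p q A := by
  unfold gk chi
  have h1 : ∀ a, p a * (ind A a * ((p a - q a) / q a) - ∑ i ∈ A, (p i - q i))
      = (p a * ((p a - q a) / q a)) * ind A a - p a * ∑ i ∈ A, (p i - q i) := by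
    intro a; ring
  rw [Finset.sum_congr rfl (fun a _ => h1 a), Finset.sum_sub_distrib, ← Finset.sum_mul, hp,
    sum_ind, one_mul, ← Finset.sum_sub_distrib]
  refine Finset.sum_congr rfl fun i hi => ?_
  have := (hq i hi).ne'
  field_simp

omit [Fintype α] in
lemma ind_nonneg (A : Finset α) (x : α) : 0 ≤ ind A x := by unfold ind; split_ifs <;> norm_num
omit [Fintype α] in
lemma ind_le_one (A : Finset α) (x : α) : ind A x ≤ 1 := by unfold ind; split_ifs <;> norm_num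

/-- second moment of the kernel -/
lemma sum_hk_sq {p q : α → ℝ} (hp0 : ∀ a, 0 ≤ p a) (hp : ∑ a, p a = 1)
    (hq0 : ∀ a, 0 ≤ q a) (hq1 : ∑ a, q a = 1) {A : Finset α} :
    ∑ x, p x * ∑ y, p y * hk q A x y ^ 2 ≤ 2 * ∑ i ∈ A, p i ^ 2 / q i ^ 2 + 8 := by
  have hA : ∑ i ∈ A, q i ≤ 1 := by
    rw [← hq1]
    exact Finset.sum_le_sum_of_subset_of_nonneg (Finset.subset_univ _) (fun i _ _ => hq0 i)
  have hA0 : 0 ≤ ∑ i ∈ A, q i := Finset.sum_nonneg fun i _ => hq0 i
  have hb : ∀ x y, hk q A x y ^ 2 ≤ 2 * (if x = y then (ind A x / q x) ^ 2 else 0) + 8 := by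
    intro x y
    unfold hk
    have i1 := ind_nonneg A x
    have i2 := ind_nonneg A y
    have i3 := ind_le_one A x
    have i4 := ind_le_one A y
    set c := ∑ i ∈ A, q i
    have h2 : (- ind A x - ind A y + c) ^ 2 ≤ 4 := by
      have : |(- ind A x - ind A y + c)| ≤ 2 := by
        rw [abs_le]; constructor <;> linarith
      calc (- ind A x - ind A y + c) ^ 2 = |(- ind A x - ind A y + c)| ^ 2 := (sq_abs _).symm
        _ ≤ 2 ^ 2 := by gcongr
        _ = 4 := by norm_num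
    split_ifs with h
    · nlinarith [sq_nonneg (ind A x / q x - (- ind A x - ind A y + c))]
    · nlinarith
  calc ∑ x, p x * ∑ y, p y * hk q A x y ^ 2
      ≤ ∑ x, p x * ∑ y, p y * (2 * (if x = y then (ind A x / q x) ^ 2 else 0) + 8) := by
        refine Finset.sum_le_sum fun x _ => mul_le_mul_of_nonneg_left ?_ (hp0 x)
        exact Finset.sum_le_sum fun y _ => mul_le_mul_of_nonneg_left (hb x y) (hp0 y)
    _ = ∑ x, p x * (2 * (p x * (ind A x / q x) ^ 2) + 8) := by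
        refine Finset.sum_congr rfl fun x _ => ?_
        congr 1
        have : ∀ y, p y * (2 * (if x = y then (ind A x / q x) ^ 2 else 0) + 8) =
            (if x = y then 2 * (p y * (ind A x / q x) ^ 2) else 0) + p y * 8 := by
          intro y; split_ifs <;> ring
        simp only [this, Finset.sum_add_distrib, ← Finset.sum_mul, hp]
        rw [Finset.sum_ite_eq]
        simp
    _ = ∑ x, ((2 * (p x ^ 2 / q x ^ 2)) * ind A x + p x * 8) := by
        refine Finset.sum_congr rfl fun x _ => ?_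
        have : ind A x ^ 2 = ind A x := by unfold ind; split_ifs <;> norm_num
        rw [div_pow, this]; ring
    _ = 2 * ∑ i ∈ A, p i ^ 2 / q i ^ 2 + 8 := by
        rw [Finset.sum_add_distrib, sum_ind, ← Finset.sum_mul, hp, ← Finset.mul_sum]; ring

/-- second moment of the projected kernel -/
lemma sum_gk_sq {p q : α → ℝ} (hp0 : ∀ a, 0 ≤ p a) (hp : ∑ a, p a = 1) {A : Finset α} :
    ∑ x, p x * gk p q A x ^ 2 ≤
      2 * ∑ i ∈ A, p i * (p i - q i) ^ 2 / q i ^ 2 + 2 * (∑ i ∈ A, (p i - q i)) ^ 2 := by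
  have hb : ∀ x, gk p q A x ^ 2 ≤ 2 * (((p x - q x) / q x) ^ 2 * ind A x) + 2 * (∑ i ∈ A, (p i - q i)) ^ 2 := by
    intro x
    unfold gk
    set c := ∑ i ∈ A, (p i - q i)
    have : ind A x ^ 2 = ind A x := by unfold ind; split_ifs <;> norm_num
    have h3 : (ind A x * ((p x - q x) / q x)) ^ 2 = ((p x - q x) / q x) ^ 2 * ind A x := by
      rw [mul_pow, this]; ring
    rw [← h3]
    nlinarith [sq_nonneg (ind A x * ((p x - q x) / q x) + c)]
  calc ∑ x, p x * gk p q A x ^ 2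
      ≤ ∑ x, p x * (2 * (((p x - q x) / q x) ^ 2 * ind A x) + 2 * (∑ i ∈ A, (p i - q i)) ^ 2) :=
        Finset.sum_le_sum fun x _ => mul_le_mul_of_nonneg_left (hb x) (hp0 x)
    _ = ∑ x, ((2 * (p x * (p x - q x) ^ 2 / q x ^ 2)) * ind A x + p x * (2 * (∑ i ∈ A, (p i - q i)) ^ 2)) := by
        refine Finset.sum_congr rfl fun x _ => ?_
        rw [div_pow]; ring
    _ = _ := by
        rw [Finset.sum_add_distrib, sum_ind, ← Finset.sum_mul, hp, ← Finset.mul_sum]; ring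

/-- the bilinear statistic -/
noncomputable def Vst (q : α → ℝ) (A : Finset α) {s : ℕ} (x y : Fin s → α) : ℝ :=
  ∑ k, ∑ j, hk q A (x j) (y k)

lemma E_V {p q : α → ℝ} (hp : ∑ a, p a = 1) {A : Finset α} (hq : ∀ i ∈ A, 0 < q i) (s : ℕ) :
    Ex p s (fun x => Ex p s (fun y => Vst q A x y)) = s ^ 2 * chi p q A := by
  unfold Vst
  have h1 : ∀ x : Fin s → α, Ex p s (fun y => ∑ k, ∑ j, hk q A (x j) (y k)) =
      s * ∑ j, gk p q A (x j) := by
    intro x
    rw [Ex_sum hp (fun a => ∑ j, hk q A (x j) a)]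
    congr 1
    simp only [Finset.mul_sum]
    rw [Finset.sum_comm]
    exact Finset.sum_congr rfl fun j _ => sum_hk hp hq _
  simp only [h1]
  rw [Ex_mul_left, Ex_sum hp, sum_gk hp hq]
  ring

lemma E_V_sq {p q : α → ℝ} (hp : ∑ a, p a = 1) {A : Finset α} (hq : ∀ i ∈ A, 0 < q i) (s : ℕ) :
    Ex p s (fun x => Ex p s (fun y => Vst q A x y ^ 2)) =
      s ^ 2 * (∑ x, p x * ∑ y, p y * hk q A x y ^ 2)
      + 2 * s ^ 2 * (s - 1) * (∑ x, p x * gk p q A x ^ 2)
      + s ^ 2 * (s - 1) ^ 2 * chi p q A ^ 2 := by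
  unfold Vst
  have h1 : ∀ x : Fin s → α, Ex p s (fun y => (∑ k, ∑ j, hk q A (x j) (y k)) ^ 2) =
      s * (∑ a, p a * (∑ j, hk q A (x j) a) ^ 2) + (s * (s - 1)) * (∑ j, gk p q A (x j)) ^ 2 := by
    intro x
    rw [Ex_sum_sq hp (fun a => ∑ j, hk q A (x j) a)]
    have : ∑ a, p a * ∑ j, hk q A (x j) a = ∑ j, gk p q A (x j) := by
      simp only [Finset.mul_sum]
      rw [Finset.sum_comm]
      exact Finset.sum_congr rfl fun j _ => sum_hk hp hq _
    rw [this]
  simp only [h1]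
  rw [Ex_add, Ex_mul_left, Ex_mul_left, Ex_sum_sq hp, sum_gk hp hq, Ex_sum_comm]
  have h2 : ∀ a, Ex p s (fun x => p a * (∑ j, hk q A (x j) a) ^ 2) =
      p a * (s * (∑ x, p x * hk q A x a ^ 2) + s * (s - 1) * gk p q A a ^ 2) := by
    intro a
    rw [Ex_mul_left, Ex_sum_sq hp (fun x => hk q A x a)]
    congr 2
    congr 1
    have : ∑ x, p x * hk q A x a = gk p q A a := by
      rw [← sum_hk hp hq a]
      exact Finset.sum_congr rfl fun x _ => by rw [hk_symm]
    rw [this]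
  simp only [h2]
  have h3 : ∑ a, p a * (s * (∑ x, p x * hk q A x a ^ 2) + s * (s - 1) * gk p q A a ^ 2) =
      s * (∑ x, p x * ∑ y, p y * hk q A x y ^ 2) + s * (s - 1) * (∑ x, p x * gk p q A x ^ 2) := by
    simp only [mul_add, Finset.sum_add_distrib]
    congr 1
    · rw [Finset.mul_sum]
      refine Finset.sum_congr rfl fun a _ => ?_
      have : ∀ x, hk q A x a = hk q A a x := fun x => hk_symm _ _ _ _
      simp only [this]
      ring
    · rw [Finset.mul_sum]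
      exact Finset.sum_congr rfl fun a _ => by ring
  rw [h3]
  ring


lemma Ex_centered_sq {β : Type*} [Fintype β] {p : β → ℝ} (hp : ∑ a, p a = 1) (s : ℕ) (W : (Fin s → β) → (Fin s → β) → ℝ)
    (μ m2 : ℝ) (h1 : Ex p s (fun x => Ex p s (fun y => W x y)) = μ)
    (h2 : Ex p s (fun x => Ex p s (fun y => W x y ^ 2)) = m2) :
    Ex p s (fun x => Ex p s (fun y => (W x y - μ) ^ 2)) = m2 - μ ^ 2 := by
  have e1 : ∀ x y, (W x y - μ) ^ 2 = (W x y ^ 2 + (-(2 * μ)) * W x y) + μ ^ 2 := by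
    intro x y; ring
  simp only [e1, Ex_add, Ex_mul_left, h1, h2, Ex_const hp]
  ring

/-- variance bound for the statistic under an arbitrary distribution -/
lemma var_V {p q : α → ℝ} (hp0 : ∀ a, 0 ≤ p a) (hp : ∑ a, p a = 1)
    (hq0 : ∀ a, 0 ≤ q a) (hq1 : ∑ a, q a = 1) {A : Finset α} {β : ℝ} (hβ : 0 < β)
    (hq : ∀ i ∈ A, β ≤ q i) (s : ℕ) :
    Ex p s (fun x => Ex p s (fun y => (Vst q A x y - s ^ 2 * chi p q A) ^ 2)) ≤
      s ^ 2 * (4 * A.card + 4 * (chi p q A / β) + 8)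
        + 2 * s ^ 3 * (4 * chi p q A + 2 * (√(chi p q A / β) * chi p q A)) := by
  have hqpos : ∀ i ∈ A, 0 < q i := fun i hi => lt_of_lt_of_le hβ (hq i hi)
  have hchi : 0 ≤ chi p q A := Finset.sum_nonneg fun i hi => by
    have := hqpos i hi; positivity
  rw [Ex_centered_sq hp s _ _ _ (E_V hp hqpos s) (E_V_sq hp hqpos s)]
  set χ := chi p q A with hχ
  set H := ∑ x, p x * ∑ y, p y * hk q A x y ^ 2 with hH
  set G := ∑ x, p x * gk p q A x ^ 2 with hG
  have hG0 : 0 ≤ G := Finset.sum_nonneg fun x _ => mul_nonneg (hp0 x) (sq_nonneg _)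
  -- bound on H
  have hsumd : ∑ i ∈ A, ((p i - q i) / q i) ^ 2 ≤ χ / β := by
    rw [hχ, chi, Finset.sum_div]
    refine Finset.sum_le_sum fun i hi => ?_
    have h1 := hqpos i hi
    have h2 := hq i hi
    rw [div_pow, div_div]
    apply div_le_div_of_nonneg_left (sq_nonneg _) (by positivity)
    nlinarith
  have hH1 : H ≤ 4 * A.card + 4 * (χ / β) + 8 := by
    have h := sum_hk_sq (A := A) hp0 hp hq0 hq1
    have h2 : ∑ i ∈ A, p i ^ 2 / q i ^ 2 ≤ ∑ i ∈ A, (2 + 2 * ((p i - q i) / q i) ^ 2) := by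
      refine Finset.sum_le_sum fun i hi => ?_
      have h1 := (hqpos i hi).ne'
      have h3 : p i ^ 2 / q i ^ 2 = (1 + (p i - q i) / q i) ^ 2 := by
        field_simp; ring
      rw [h3]
      nlinarith [sq_nonneg (1 - (p i - q i) / q i)]
    rw [Finset.sum_add_distrib, ← Finset.mul_sum, Finset.sum_const, nsmul_eq_mul] at h2
    linarith
  -- bound on G
  have hρ : ∀ i ∈ A, |p i - q i| / q i ≤ √(χ / β) := by
    intro i hi
    apply Real.le_sqrt_of_sq_le
    have h1 := hqpos i hi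
    calc (|p i - q i| / q i) ^ 2 = ((p i - q i) / q i) ^ 2 := by rw [div_pow, div_pow, sq_abs]
      _ ≤ ∑ i ∈ A, ((p i - q i) / q i) ^ 2 :=
        Finset.single_le_sum (f := fun i => ((p i - q i) / q i) ^ 2) (fun j _ => sq_nonneg _) hi
      _ ≤ _ := hsumd
  have hG1 : G ≤ 4 * χ + 2 * (√(χ / β) * χ) := by
    have h := sum_gk_sq (p := p) (q := q) (A := A) hp0 hp
    have h2 : ∑ i ∈ A, p i * (p i - q i) ^ 2 / q i ^ 2 ≤ χ + √(χ / β) * χ := by
      rw [hχ, chi, Finset.mul_sum, ← Finset.sum_add_distrib]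
      refine Finset.sum_le_sum fun i hi => ?_
      have h1 := hqpos i hi
      have h3 := hρ i hi
      have h4 : p i * (p i - q i) ^ 2 / q i ^ 2 =
          (p i - q i) ^ 2 / q i + ((p i - q i) / q i) * ((p i - q i) ^ 2 / q i) := by
        field_simp; ring
      rw [h4]
      have h5 : (p i - q i) / q i ≤ √(chi p q A / β) := by
        refine le_trans ?_ h3
        gcongr
        exact le_abs_self _
      have h6 : 0 ≤ (p i - q i) ^ 2 / q i := by positivity
      have := mul_le_mul_of_nonneg_right h5 h6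
      simp only [chi] at this ⊢
      linarith
    have h3 : (∑ i ∈ A, (p i - q i)) ^ 2 ≤ χ := by
      have hA : ∑ i ∈ A, q i ≤ 1 := by
        rw [← hq1]
        exact Finset.sum_le_sum_of_subset_of_nonneg (Finset.subset_univ _) (fun i _ _ => hq0 i)
      have := Finset.sum_sq_le_sum_mul_sum_of_sq_le_mul A
        (r := fun i => p i - q i) (f := fun i => (p i - q i) ^ 2 / q i) (g := q)
        (fun i hi => by have := hqpos i hi; positivity) (fun i hi => hq0 i)
        (fun i hi => by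
          have h1 := (hqpos i hi).ne'
          have : (p i - q i) ^ 2 / q i * q i = (p i - q i) ^ 2 := by field_simp
          exact this.ge)
      calc (∑ i ∈ A, (p i - q i)) ^ 2 ≤ χ * ∑ i ∈ A, q i := this
        _ ≤ χ * 1 := by gcongr
        _ = χ := mul_one _
    linarith
  have hs0 : (0 : ℝ) ≤ s := Nat.cast_nonneg s
  have e1 : (s : ℝ) ^ 2 * H ≤ s ^ 2 * (4 * A.card + 4 * (χ / β) + 8) := by gcongr
  have e2 : 2 * (s : ℝ) ^ 2 * (s - 1) * G ≤ 2 * s ^ 3 * (4 * χ + 2 * (√(χ / β) * χ)) := by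
    have : 2 * (s : ℝ) ^ 2 * (s - 1) * G ≤ 2 * s ^ 3 * G := by
      have : 0 ≤ 2 * (s : ℝ) ^ 2 * G := by positivity
      nlinarith
    refine this.trans ?_
    gcongr
  have e3 : (s : ℝ) ^ 2 * (s - 1) ^ 2 * χ ^ 2 ≤ (s ^ 2 * χ) ^ 2 := by
    rcases Nat.eq_zero_or_pos s with h0 | h0
    · subst h0; simp
    · have h1 : (1 : ℝ) ≤ s := by exact_mod_cast h0
      have h2 : ((s : ℝ) - 1) ^ 2 ≤ s ^ 2 := by nlinarith
      have h3 : 0 ≤ (s : ℝ) ^ 2 * χ ^ 2 := by positivity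
      nlinarith
  linarith

/-- variance under the null -/
lemma var_V_null {q : α → ℝ} (hq0 : ∀ a, 0 ≤ q a) (hq1 : ∑ a, q a = 1) {A : Finset α}
    (hq : ∀ i ∈ A, 0 < q i) (s : ℕ) :
    Ex q s (fun x => Ex q s (fun y => Vst q A x y ^ 2)) ≤ s ^ 2 * (2 * A.card + 8) := by
  rw [E_V_sq hq1 hq s]
  have h1 : chi q q A = 0 := by unfold chi; simp
  have h2 : ∀ x, gk q q A x = 0 := by intro x; unfold gk; simp
  simp only [h1, h2]
  have h := sum_hk_sq (A := A) hq0 hq1 hq0 hq1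
  have h3 : ∑ i ∈ A, q i ^ 2 / q i ^ 2 = A.card := by
    rw [Finset.sum_congr rfl (g := fun _ => (1 : ℝ)) (fun i hi => by
      have := (hq i hi).ne'; field_simp)]
    simp
  rw [h3] at h
  have : (s : ℝ) ^ 2 * (∑ x, q x * ∑ y, q y * hk q A x y ^ 2) ≤ s ^ 2 * (2 * A.card + 8) := by gcongr
  simpa using this


/-- number of samples outside `A` -/
noncomputable def Rst (A : Finset α) {s : ℕ} (x : Fin s → α) : ℝ := ∑ j, (1 - ind A (x j))

/-- the combined test -/
noncomputable def phiT (q : α → ℝ) (A : Finset α) (ε : ℝ) (s : ℕ) (z : Fin (s + s) → α) : ℝ :=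
  if Rst A (fun j => z (Fin.castAdd s j)) < s * ε ^ 2 / 4 ∧
    Vst q A (fun j => z (Fin.castAdd s j)) (fun j => z (Fin.natAdd s j)) < s ^ 2 * ε ^ 2 / 2
  then 1 else 0

omit [Fintype α] in
lemma phiT_append (q : α → ℝ) (A : Finset α) (ε : ℝ) (s : ℕ) (x y : Fin s → α) :
    phiT q A ε s (Fin.append x y) =
          if Rst A x < s * ε ^ 2 / 4 ∧ Vst q A x y < s ^ 2 * ε ^ 2 / 2 then 1 else 0 := by
  unfold phiT
  simp only [Fin.append_left, Fin.append_right]

lemma sum_one_sub_ind {p : α → ℝ} (hp : ∑ a, p a = 1) (A : Finset α) :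
    ∑ a, p a * (1 - ind A a) = 1 - ∑ i ∈ A, p i := by
  have : ∀ a, p a * (1 - ind A a) = p a - p a * ind A a := fun a => by ring
  simp only [this, Finset.sum_sub_distrib, hp, sum_ind]

lemma accept_null {q : α → ℝ} (hq0 : ∀ a, 0 ≤ q a) (hq1 : ∑ a, q a = 1) {A : Finset α}
    (hq : ∀ i ∈ A, 0 < q i) {ε L : ℝ} (hε : 0 < ε) (hL : 1 ≤ L) (hAL : (A.card : ℝ) ≤ L)
    (hA : 1 - ∑ i ∈ A, q i ≤ ε ^ 2 / 50) {s : ℕ} (hs : 1000 * √L / ε ^ 2 ≤ s) :
    2 / 3 ≤ Ex q (s + s) (phiT q A ε s) := by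
  have hrL : 1 ≤ √L := by rw [Real.one_le_sqrt]; exact hL
  have hspos : (0 : ℝ) < s := lt_of_lt_of_le (by positivity) hs
  have hs2 : 1000 * √L ≤ s * ε ^ 2 := by
    rw [div_le_iff₀ (by positivity)] at hs; exact hs
  rw [Ex_append]
  simp only [phiT_append]
  have hpt : ∀ x y : Fin s → α,
      1 + (-(4 / (s * ε ^ 2)) * Rst A x + (-(4 / (s ^ 4 * ε ^ 4))) * Vst q A x y ^ 2) ≤
      (if Rst A x < s * ε ^ 2 / 4 ∧ Vst q A x y < s ^ 2 * ε ^ 2 / 2 then (1 : ℝ) else 0) := by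
    intro x y
    have hR : 0 ≤ Rst A x := Finset.sum_nonneg fun j _ => by
      have := ind_le_one A (x j); linarith
    have h1 : 0 ≤ (4 / (s * ε ^ 2)) * Rst A x := by positivity
    have h2 : 0 ≤ (4 / (s ^ 4 * ε ^ 4)) * Vst q A x y ^ 2 := by positivity
    split_ifs with h
    · linarith
    · rw [not_and_or, not_lt, not_lt] at h
      rcases h with h | h
      · have : 1 ≤ (4 / (s * ε ^ 2)) * Rst A x := by
          rw [div_mul_eq_mul_div, le_div_iff₀ (by positivity)]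
          linarith
        linarith
      · have : 1 ≤ (4 / (s ^ 4 * ε ^ 4)) * Vst q A x y ^ 2 := by
          rw [div_mul_eq_mul_div, le_div_iff₀ (by positivity)]
          have h3 : (s ^ 2 * ε ^ 2 / 2) ^ 2 ≤ Vst q A x y ^ 2 := by gcongr
          nlinarith
        linarith
  have hmono : Ex q s (fun x => Ex q s (fun y =>
      1 + (-(4 / (s * ε ^ 2)) * Rst A x + (-(4 / (s ^ 4 * ε ^ 4))) * Vst q A x y ^ 2))) ≤
      Ex q s (fun x => Ex q s (fun y => (if Rst A x < s * ε ^ 2 / 4 ∧ Vst q A x y < s ^ 2 * ε ^ 2 / 2 then (1 : ℝ) else 0))) :=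
    Ex_mono hq0 s fun x => Ex_mono hq0 s fun y => hpt x y
  refine le_trans ?_ hmono
  simp only [Ex_add, Ex_mul_left, Ex_const hq1]
  have hER : Ex q s (fun x => Rst A x) ≤ s * (ε ^ 2 / 50) := by
    unfold Rst
    rw [Ex_sum hq1 (fun a => 1 - ind A a), sum_one_sub_ind hq1]
    gcongr
  have hEV := var_V_null hq0 hq1 hq s
  have hEV2 : Ex q s (fun x => Ex q s (fun y => Vst q A x y ^ 2)) ≤ s ^ 2 * (10 * L) := by
    refine hEV.trans ?_
    gcongr
    linarith
  have h1 : (4 / (s * ε ^ 2)) * Ex q s (fun x => Rst A x) ≤ 8 / 100 := by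
    calc (4 / (s * ε ^ 2)) * Ex q s (fun x => Rst A x) ≤ (4 / (s * ε ^ 2)) * (s * (ε ^ 2 / 50)) := by gcongr
      _ = 8 / 100 := by field_simp; norm_num
  have h2 : (4 / (s ^ 4 * ε ^ 4)) * Ex q s (fun x => Ex q s (fun y => Vst q A x y ^ 2)) ≤ 4 / 100 := by
    calc (4 / (s ^ 4 * ε ^ 4)) * Ex q s (fun x => Ex q s (fun y => Vst q A x y ^ 2))
        ≤ (4 / (s ^ 4 * ε ^ 4)) * (s ^ 2 * (10 * L)) := by gcongr
      _ = 40 * L / (s * ε ^ 2) ^ 2 := by field_simp; norm_num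
      _ ≤ 40 * L / (1000 * √L) ^ 2 := by gcongr
      _ = 40 * L / (1000 ^ 2 * L) := by rw [mul_pow, Real.sq_sqrt (by linarith)]
      _ ≤ 4 / 100 := by
        rw [div_le_div_iff₀ (by positivity) (by positivity)]
        nlinarith
  linarith

lemma accept_mass {p : α → ℝ} (q : α → ℝ) (hp0 : ∀ a, 0 ≤ p a) (hp1 : ∑ a, p a = 1) {A : Finset α}
    {ε L : ℝ} (hε : 0 < ε) (hL : 1 ≤ L)
    (hA : ε ^ 2 / 2 ≤ 1 - ∑ i ∈ A, p i) {s : ℕ} (hs : 1000 * √L / ε ^ 2 ≤ s) :
    Ex p (s + s) (phiT q A ε s) ≤ 1 / 3 := by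
  have hrL : 1 ≤ √L := by rw [Real.one_le_sqrt]; exact hL
  have hspos : (0 : ℝ) < s := lt_of_lt_of_le (by positivity) hs
  have hs2 : 1000 * √L ≤ s * ε ^ 2 := by
    rw [div_le_iff₀ (by positivity)] at hs; exact hs
  rw [Ex_append]
  simp only [phiT_append]
  set π := 1 - ∑ i ∈ A, p i with hπ
  have hπ0 : 0 < π := lt_of_lt_of_le (by positivity) hA
  have hpt : ∀ x y : Fin s → α,
      (if Rst A x < s * ε ^ 2 / 4 ∧ Vst q A x y < s ^ 2 * ε ^ 2 / 2 then (1 : ℝ) else 0) ≤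
      4 / (s * π) ^ 2 * (Rst A x - s * π) ^ 2 := by
    intro x y
    split_ifs with h
    · rw [div_mul_eq_mul_div, le_div_iff₀ (by positivity)]
      have h1 := h.1
      have h3 : s * ε ^ 2 / 4 ≤ s * π / 2 := by nlinarith
      have h4 : s * π / 2 ≤ s * π - Rst A x := by linarith
      have h5 : (s * π / 2) ^ 2 ≤ (s * π - Rst A x) ^ 2 := by gcongr
      nlinarith
    · positivity
  have hmono := Ex_mono hp0 s (fun x => Ex_mono hp0 s (fun y => hpt x y))
  refine le_trans hmono ?_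
  simp only [Ex_const hp1]
  rw [Ex_mul_left]
  have e1 : ∀ x : Fin s → α, (Rst A x - s * π) ^ 2 = (Rst A x ^ 2 + (-(2 * (s * π))) * Rst A x) + (s * π) ^ 2 := by
    intro x; ring
  have e2 : Ex p s (fun x => (Rst A x - s * π) ^ 2) = s * π - s * π ^ 2 := by
    simp only [e1, Ex_add, Ex_mul_left, Ex_const hp1]
    unfold Rst
    rw [Ex_sum_sq hp1 (fun a => 1 - ind A a), Ex_sum hp1 (fun a => 1 - ind A a)]
    have h1 : ∀ a, (1 - ind A a) ^ 2 = 1 - ind A a := by
      intro a; unfold ind; split_ifs <;> norm_num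
    simp only [h1, sum_one_sub_ind hp1, ← hπ]
    ring
  rw [e2]
  have h3 : 4 / (s * π) ^ 2 * (s * π - s * π ^ 2) ≤ 4 / (s * π) := by
    calc 4 / (s * π) ^ 2 * (s * π - s * π ^ 2) ≤ 4 / (s * π) ^ 2 * (s * π) := by
          gcongr
          have : 0 ≤ s * π ^ 2 := by positivity
          linarith
      _ = 4 / (s * π) := by field_simp
  refine h3.trans ?_
  rw [div_le_div_iff₀ (by positivity) (by norm_num)]
  have : (s : ℝ) * (ε ^ 2 / 2) ≤ s * π := by gcongr
  nlinarith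

lemma accept_chi {p q : α → ℝ} (hp0 : ∀ a, 0 ≤ p a) (hp1 : ∑ a, p a = 1)
    (hq0 : ∀ a, 0 ≤ q a) (hq1 : ∑ a, q a = 1) {A : Finset α}
    {ε L : ℝ} (hε : 0 < ε) (hL : 1 ≤ L) (hAL : (A.card : ℝ) ≤ L)
    (hq : ∀ i ∈ A, ε ^ 2 / (100 * L) ≤ q i)
    (hA : ε ^ 2 ≤ chi p q A) {s : ℕ} (hs : 1000 * √L / ε ^ 2 ≤ s) :
    Ex p (s + s) (phiT q A ε s) ≤ 1 / 3 := by
  have hrL : 1 ≤ √L := by rw [Real.one_le_sqrt]; exact hL
  have hspos : (0 : ℝ) < s := lt_of_lt_of_le (by positivity) hs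
  have hs2 : 1000 * √L ≤ s * ε ^ 2 := by
    rw [div_le_iff₀ (by positivity)] at hs; exact hs
  rw [Ex_append]
  simp only [phiT_append]
  have hvar := var_V hp0 hp1 hq0 hq1 (A := A) (β := ε ^ 2 / (100 * L)) (by positivity) hq s
  set χ := chi p q A with hχ
  have hχ0 : 0 < χ := lt_of_lt_of_le (by positivity) hA
  have hpt : ∀ x y : Fin s → α,
      (if Rst A x < s * ε ^ 2 / 4 ∧ Vst q A x y < s ^ 2 * ε ^ 2 / 2 then (1 : ℝ) else 0) ≤
      4 / (s ^ 2 * χ) ^ 2 * (Vst q A x y - s ^ 2 * χ) ^ 2 := by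
    intro x y
    split_ifs with h
    · rw [div_mul_eq_mul_div, le_div_iff₀ (by positivity)]
      have h1 := h.2
      have h3 : s ^ 2 * ε ^ 2 / 2 ≤ s ^ 2 * χ / 2 := by gcongr
      have h4 : s ^ 2 * χ / 2 ≤ s ^ 2 * χ - Vst q A x y := by linarith
      have h5 : (s ^ 2 * χ / 2) ^ 2 ≤ (s ^ 2 * χ - Vst q A x y) ^ 2 := by gcongr
      nlinarith
    · positivity
  have hmono := Ex_mono hp0 s (fun x => Ex_mono hp0 s (fun y => hpt x y))
  refine le_trans hmono ?_
  simp only [Ex_mul_left]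
  refine le_trans (mul_le_mul_of_nonneg_left hvar (by positivity)) ?_
  set β := ε ^ 2 / (100 * L) with hβ
  have hβ0 : 0 < β := by positivity
  set T := s * χ with hT
  have hT0 : 0 < T := by positivity
  have hTL : 1000 * √L ≤ T := by
    refine hs2.trans ?_
    rw [hT]; gcongr
  have hT1 : 1000 ≤ T := by nlinarith
  have hTsq : 1000 ^ 2 * L ≤ T ^ 2 := by
    calc 1000 ^ 2 * L = (1000 * √L) ^ 2 := by rw [mul_pow, Real.sq_sqrt (by linarith)]
      _ ≤ T ^ 2 := by gcongr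
  have hs3 : 1000 ^ 2 * L ≤ (s * ε ^ 2) ^ 2 := by
    calc 1000 ^ 2 * L = (1000 * √L) ^ 2 := by rw [mul_pow, Real.sq_sqrt (by linarith)]
      _ ≤ (s * ε ^ 2) ^ 2 := by gcongr
  have hw : χ / β ≤ (T / 100) ^ 2 := by
    rw [div_le_iff₀ hβ0, hβ, hT]
    have h1 : (s * χ / 100) ^ 2 * (ε ^ 2 / (100 * L)) = (s ^ 2 * ε ^ 2 * χ) * χ / (10 ^ 6 * L) := by
      field_simp; norm_num
    rw [h1, le_div_iff₀ (by positivity)]
    have h2 : 10 ^ 6 * L ≤ s ^ 2 * ε ^ 2 * χ := by
      calc (10 : ℝ) ^ 6 * L = 1000 ^ 2 * L := by norm_num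
        _ ≤ (s * ε ^ 2) ^ 2 := hs3
        _ = s ^ 2 * ε ^ 2 * ε ^ 2 := by ring
        _ ≤ s ^ 2 * ε ^ 2 * χ := by gcongr
    nlinarith
  have hw2 : √(χ / β) ≤ T / 100 := by
    rw [Real.sqrt_le_left (by positivity)]; exact hw
  have hchain : s ^ 2 * (4 * (A.card : ℝ) + 4 * (χ / β) + 8) + 2 * s ^ 3 * (4 * χ + 2 * (√(χ / β) * χ)) ≤
      s ^ 2 * (12 * L + 4 * (T / 100) ^ 2 + 8 * T + 4 * (T / 100) * T) := by
    have e1 : 2 * (s : ℝ) ^ 3 * (4 * χ + 2 * (√(χ / β) * χ)) = s ^ 2 * (8 * T + 4 * √(χ / β) * T) := by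
      rw [hT]; ring
    rw [e1, ← mul_add]
    apply mul_le_mul_of_nonneg_left _ (by positivity)
    have : 4 * √(χ / β) * T ≤ 4 * (T / 100) * T := by gcongr
    nlinarith
  calc 4 / (s ^ 2 * χ) ^ 2 * (s ^ 2 * (4 * (A.card : ℝ) + 4 * (χ / β) + 8) + 2 * s ^ 3 * (4 * χ + 2 * (√(χ / β) * χ)))
      ≤ 4 / (s ^ 2 * χ) ^ 2 * (s ^ 2 * (12 * L + 4 * (T / 100) ^ 2 + 8 * T + 4 * (T / 100) * T)) := by gcongr
    _ = (48 * L + 16 * (T / 100) ^ 2 + 32 * T + 16 * (T / 100) * T) / T ^ 2 := by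
        rw [hT]; field_simp; ring
    _ ≤ 1 / 3 := by
        rw [div_le_div_iff₀ (by positivity) (by norm_num)]
        nlinarith

end Kernel


section Upper

lemma sum_sq_of_lt_dH {n : ℕ} {p q : Fin n → ℝ} {ε : ℝ} (hε : 0 < ε) (h : ε < dH p q) :
    2 * ε ^ 2 < ∑ i, (√(p i) - √(q i)) ^ 2 := by
  unfold dH at h
  have h0 : 0 ≤ ∑ i, (√(p i) - √(q i)) ^ 2 := Finset.sum_nonneg fun i _ => sq_nonneg _
  have h1 : ε ^ 2 < ((1 / √2) * √(∑ i, (√(p i) - √(q i)) ^ 2)) ^ 2 := by gcongr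
  rw [mul_pow, Real.sq_sqrt h0, div_pow, Real.sq_sqrt (by norm_num)] at h1
  linarith

lemma sq_sub_sqrt_le_add {a b : ℝ} (ha : 0 ≤ a) (hb : 0 ≤ b) : (√a - √b) ^ 2 ≤ a + b := by
  have h1 := Real.sq_sqrt ha
  have h2 := Real.sq_sqrt hb
  have h3 := Real.sqrt_nonneg a
  have h4 := Real.sqrt_nonneg b
  nlinarith [mul_nonneg h3 h4]

lemma sq_sub_sqrt_le_chi {a b : ℝ} (ha : 0 ≤ a) (hb : 0 < b) : (√a - √b) ^ 2 ≤ (a - b) ^ 2 / b := by
  rw [le_div_iff₀ hb]
  have h1 := Real.sq_sqrt ha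
  have h2 := Real.sq_sqrt hb.le
  have h3 := Real.sqrt_nonneg a
  have h4 := Real.sqrt_nonneg b
  have e1 : a - b = (√a - √b) * (√a + √b) := by
    rw [← h1, ← h2]; simp only [Real.sqrt_sq h3, Real.sqrt_sq h4]; ring
  have e2 : (a - b) ^ 2 = (√a - √b) ^ 2 * (√a + √b) ^ 2 := by rw [e1]; ring
  rw [e2]
  apply mul_le_mul_of_nonneg_left _ (sq_nonneg _)
  calc b = √b ^ 2 := h2.symm
    _ ≤ (√a + √b) ^ 2 := by gcongr; linarith

lemma chi_of_far {n : ℕ} {p q : Fin n → ℝ} (hp : IsDist p) (hq : IsDist q) {ε : ℝ} (hε : 0 < ε)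
    (h : ε < dH p q) {A : Finset (Fin n)} (hqA : ∀ i ∈ A, 0 < q i)
    (h1 : 1 - ∑ i ∈ A, p i < ε ^ 2 / 2) (h2 : 1 - ∑ i ∈ A, q i ≤ ε ^ 2 / 50) :
    ε ^ 2 ≤ chi p q A := by
  have hs := sum_sq_of_lt_dH hε h
  rw [← Finset.sum_add_sum_compl A] at hs
  have hc1 : ∑ i ∈ Aᶜ, (√(p i) - √(q i)) ^ 2 ≤ ∑ i ∈ Aᶜ, (p i + q i) :=
    Finset.sum_le_sum fun i _ => sq_sub_sqrt_le_add (hp.1 i) (hq.1 i)
  have hc2 : ∑ i ∈ A, p i + ∑ i ∈ Aᶜ, p i = 1 := by rw [Finset.sum_add_sum_compl]; exact hp.2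
  have hc3 : ∑ i ∈ A, q i + ∑ i ∈ Aᶜ, q i = 1 := by rw [Finset.sum_add_sum_compl]; exact hq.2
  rw [Finset.sum_add_distrib] at hc1
  have hc4 : ∑ i ∈ A, (√(p i) - √(q i)) ^ 2 ≤ chi p q A :=
    Finset.sum_le_sum fun i hi => sq_sub_sqrt_le_chi (hp.1 i) (hqA i hi)
  have : 0 < ε ^ 2 := by positivity
  linarith

lemma effSupp_spec {n : ℕ} {q : Fin n → ℝ} (hq : IsDist q) {t : ℝ} (ht : 0 ≤ t) :
    ∃ A : Finset (Fin n), A.Nonempty ∧ A.card = effSupp q t ∧ 1 - t ≤ ∑ i ∈ A, q i := by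
  have hne : {k | ∃ A : Finset (Fin n), A.Nonempty ∧ A.card = k ∧ 1 - t ≤ ∑ i ∈ A, q i}.Nonempty := by
    refine ⟨_, Finset.univ, ?_, rfl, ?_⟩
    · by_contra h
      rw [Finset.not_nonempty_iff_eq_empty] at h
      have := hq.2
      rw [h] at this
      simp at this
    · rw [hq.2]; linarith
  exact Nat.sInf_mem hne

lemma one_le_effSupp {n : ℕ} {q : Fin n → ℝ} (hq : IsDist q) {t : ℝ} (ht : 0 ≤ t) :
    1 ≤ effSupp q t := by
  obtain ⟨A, hA, hc, -⟩ := effSupp_spec hq ht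
  rw [← hc]
  exact hA.card_pos

theorem upper {n : ℕ} {q : Fin n → ℝ} (hq : IsDist q) {ε : ℝ} (hε : 0 < ε) (hε1 : ε ≤ 1) :
    ∃ s : ℕ, (s : ℝ) ≤ 2002 * (√(effSupp q (ε ^ 2 / 100)) / ε ^ 2) ∧
      ∃ φ : (Fin s → Fin n) → ℝ, IsTester q ε s φ := by
  obtain ⟨B, hB, hBc, hBq⟩ := effSupp_spec hq (t := ε ^ 2 / 100) (by positivity)
  set L : ℝ := (effSupp q (ε ^ 2 / 100) : ℝ) with hL
  have hL1 : 1 ≤ L := by rw [hL]; exact_mod_cast one_le_effSupp hq (by positivity)
  set A := B.filter (fun i => ε ^ 2 / (100 * L) ≤ q i) with hA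
  set s := ⌈1000 * √L / ε ^ 2⌉₊ with hs
  have hs1 : 1000 * √L / ε ^ 2 ≤ s := Nat.le_ceil _
  have hrL : 1 ≤ √L := by rw [Real.one_le_sqrt]; exact hL1
  have hqA : ∀ i ∈ A, ε ^ 2 / (100 * L) ≤ q i := fun i hi => (Finset.mem_filter.mp hi).2
  have hqA' : ∀ i ∈ A, 0 < q i := fun i hi => lt_of_lt_of_le (by positivity) (hqA i hi)
  have hAc : (A.card : ℝ) ≤ L := by
    rw [hL, ← hBc]; exact_mod_cast Finset.card_filter_le _ _
  have hAq : 1 - ∑ i ∈ A, q i ≤ ε ^ 2 / 50 := by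
    have h1 : ∑ i ∈ B, q i = ∑ i ∈ A, q i + ∑ i ∈ B.filter (fun i => ¬ ε ^ 2 / (100 * L) ≤ q i), q i :=
      (Finset.sum_filter_add_sum_filter_not B _ _).symm
    have h2 : ∑ i ∈ B.filter (fun i => ¬ ε ^ 2 / (100 * L) ≤ q i), q i ≤
        ∑ i ∈ B.filter (fun i => ¬ ε ^ 2 / (100 * L) ≤ q i), ε ^ 2 / (100 * L) :=
      Finset.sum_le_sum fun i hi => (not_le.mp (Finset.mem_filter.mp hi).2).le
    have h3 : ∑ i ∈ B.filter (fun i => ¬ ε ^ 2 / (100 * L) ≤ q i), ε ^ 2 / (100 * L) ≤ ε ^ 2 / 100 := by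
      rw [Finset.sum_const, nsmul_eq_mul]
      have h4 : ((B.filter (fun i => ¬ ε ^ 2 / (100 * L) ≤ q i)).card : ℝ) ≤ L := by
        rw [hL, ← hBc]; exact_mod_cast Finset.card_filter_le _ _
      calc _ ≤ L * (ε ^ 2 / (100 * L)) := by gcongr
        _ = ε ^ 2 / 100 := by field_simp
    linarith
  refine ⟨s + s, ?_, phiT q A ε s, ?_, ?_, ?_⟩
  · push_cast
    have h1 : (s : ℝ) < 1000 * √L / ε ^ 2 + 1 := Nat.ceil_lt_add_one (by positivity)
    have h2 : 1 ≤ √L / ε ^ 2 := by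
      rw [le_div_iff₀ (by positivity)]
      nlinarith
    have h3 : 1000 * √L / ε ^ 2 = 1000 * (√L / ε ^ 2) := by ring
    linarith
  · intro x
    unfold phiT
    split_ifs <;> norm_num
  · exact accept_null hq.1 hq.2 hqA' hε hL1 hAc hAq hs1
  · intro p hp hfar
    have key : acceptProb (phiT q A ε s) p ≤ 1 / 3 := by
      by_cases h : ε ^ 2 / 2 ≤ 1 - ∑ i ∈ A, p i
      · exact accept_mass q hp.1 hp.2 hε hL1 h hs1
      · exact accept_chi hp.1 hp.2 hq.1 hq.2 hε hL1 hAc hqA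
          (chi_of_far hp hq hε hfar hqA' (not_le.mp h) hAq) hs1
    linarith

end Upper


section LowerGeneral

variable {α : Type*} [Fintype α]

noncomputable def sg (b : Bool) : ℝ := if b then 1 else -1

lemma sg_abs (b : Bool) : |sg b| = 1 := by unfold sg; split_ifs <;> simp

lemma sg_sq (b : Bool) : sg b ^ 2 = 1 := by unfold sg; split_ifs <;> norm_num

lemma sum_bool_exp (c : ℝ) (a : Bool) : ∑ u : Bool, Real.exp (sg a * sg u * c) = 2 * Real.cosh c := by
  rw [Fintype.sum_bool, Real.cosh_eq]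
  cases a <;> simp [sg] <;> ring

variable {ι : Type*} [Fintype ι] [DecidableEq ι]

/-- perturbed distribution -/
noncomputable def pz (q : α → ℝ) (f : ι → α → ℝ) (z : ι → Bool) (i : α) : ℝ :=
  q i + ∑ b, sg (z b) * f b i

omit [Fintype α] [DecidableEq ι] in
lemma pz_abs {q : α → ℝ} (hq0 : ∀ a, 0 ≤ q a) {f : ι → α → ℝ}
    (hO : ∀ b b' i, b ≠ b' → f b i * f b' i = 0)
    (hB : ∀ b i, |f b i| ≤ q i) (z : ι → Bool) (i : α) : |∑ b, sg (z b) * f b i| ≤ q i := by
  by_cases h : ∃ b, f b i ≠ 0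
  · obtain ⟨b, hb⟩ := h
    rw [Fintype.sum_eq_single b (fun b' hb' => by
      have := hO b b' i hb'.symm
      have h0 : f b' i = 0 := by
        rcases mul_eq_zero.mp this with h | h
        · exact absurd h hb
        · exact h
      rw [h0, mul_zero])]
    rw [abs_mul, sg_abs, one_mul]
    exact hB b i
  · push Not at h
    rw [Finset.sum_eq_zero (fun b _ => by rw [h b, mul_zero]), abs_zero]
    exact hq0 i

omit [Fintype α] [DecidableEq ι] in
lemma pz_nonneg {q : α → ℝ} (hq0 : ∀ a, 0 ≤ q a) {f : ι → α → ℝ}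
    (hO : ∀ b b' i, b ≠ b' → f b i * f b' i = 0)
    (hB : ∀ b i, |f b i| ≤ q i) (z : ι → Bool) (i : α) : 0 ≤ pz q f z i := by
  have := abs_le.mp (pz_abs hq0 hO hB z i)
  unfold pz
  linarith [this.1]

omit [DecidableEq ι] in
lemma pz_sum {q : α → ℝ} (hq1 : ∑ a, q a = 1) {f : ι → α → ℝ}
    (hZ : ∀ b, ∑ i, f b i = 0) (z : ι → Bool) : ∑ i, pz q f z i = 1 := by
  unfold pz
  rw [Finset.sum_add_distrib, hq1, Finset.sum_comm]
  rw [Finset.sum_eq_zero (fun b _ => by rw [← Finset.mul_sum, hZ b, mul_zero]), add_zero]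

omit [DecidableEq ι] in
lemma pz_inner {q : α → ℝ} (hq0 : ∀ a, 0 ≤ q a) (hq1 : ∑ a, q a = 1) {f : ι → α → ℝ}
    (hO : ∀ b b' i, b ≠ b' → f b i * f b' i = 0)
    (hB : ∀ b i, |f b i| ≤ q i) (hZ : ∀ b, ∑ i, f b i = 0) (z z' : ι → Bool) :
    ∑ i, pz q f z i * pz q f z' i / q i =
      1 + ∑ b, sg (z b) * sg (z' b) * ∑ i, f b i ^ 2 / q i := by
  have h0 : ∀ i, pz q f z i * pz q f z' i / q i =
      q i + (∑ b, sg (z b) * f b i) + (∑ b, sg (z' b) * f b i) +
        ∑ b, sg (z b) * sg (z' b) * (f b i ^ 2 / q i) := by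
    intro i
    have h1 : (∑ b, sg (z b) * f b i) * (∑ b, sg (z' b) * f b i) =
        ∑ b, sg (z b) * sg (z' b) * f b i ^ 2 := by
      rw [Finset.sum_mul_sum]
      refine Finset.sum_congr rfl fun b _ => ?_
      rw [Fintype.sum_eq_single b (fun b' hb' => by
        have := hO b b' i hb'.symm
        calc sg (z b) * f b i * (sg (z' b') * f b' i) = sg (z b) * sg (z' b') * (f b i * f b' i) := by ring
          _ = 0 := by rw [this, mul_zero])]
      ring
    rcases (hq0 i).eq_or_lt with hi | hi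
    · have hf : ∀ b, f b i = 0 := fun b => by
        have := hB b i
        rw [← hi] at this
        exact abs_nonpos_iff.mp this
      simp [pz, hf, ← hi]
    · have hne := hi.ne'
      have h2 : ∑ b, sg (z b) * sg (z' b) * (f b i ^ 2 / q i) =
          ((∑ b, sg (z b) * f b i) * (∑ b, sg (z' b) * f b i)) / q i := by
        rw [h1, Finset.sum_div]
        exact Finset.sum_congr rfl fun b _ => by ring
      rw [h2]
      unfold pz
      field_simp
      ring
  simp only [h0, Finset.sum_add_distrib, hq1]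
  have hz : ∀ z : ι → Bool, ∑ i, ∑ b, sg (z b) * f b i = 0 := by
    intro z
    rw [Finset.sum_comm]
    exact Finset.sum_eq_zero (fun b _ => by rw [← Finset.mul_sum, hZ b, mul_zero])
  rw [hz, hz, add_zero, add_zero]
  congr 1
  rw [Finset.sum_comm]
  exact Finset.sum_congr rfl fun b _ => by rw [Finset.mul_sum]

/-- the chi-square bound for the mixture -/
lemma mixture_bound {q : α → ℝ} (hq0 : ∀ a, 0 ≤ q a) (hq1 : ∑ a, q a = 1) {f : ι → α → ℝ}
    (hO : ∀ b b' i, b ≠ b' → f b i * f b' i = 0)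
    (hB : ∀ b i, |f b i| ≤ q i) (hZ : ∀ b, ∑ i, f b i = 0) (s : ℕ) :
    ∑ x : Fin s → α, (((Fintype.card (ι → Bool) : ℝ))⁻¹ * ∑ z : ι → Bool, ∏ j, pz q f z (x j)) ^ 2 /
      (∏ j, q (x j)) ≤ Real.exp (s ^ 2 * (∑ b, (∑ i, f b i ^ 2 / q i) ^ 2) / 2) := by
  set N : ℝ := (Fintype.card (ι → Bool) : ℝ) with hN
  have hNpos : 0 < N := by rw [hN]; exact_mod_cast Fintype.card_pos
  set m : ι → ℝ := fun b => ∑ i, f b i ^ 2 / q i with hm
  have e1 : ∀ x : Fin s → α, (N⁻¹ * ∑ z : ι → Bool, ∏ j, pz q f z (x j)) ^ 2 / (∏ j, q (x j)) =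
      N⁻¹ ^ 2 * ∑ z : ι → Bool, ∑ z' : ι → Bool, ∏ j, (pz q f z (x j) * pz q f z' (x j) / q (x j)) := by
    intro x
    rw [mul_pow, mul_div_assoc]
    congr 1
    rw [sq, Finset.sum_mul_sum, Finset.sum_div]
    refine Finset.sum_congr rfl fun z _ => ?_
    rw [Finset.sum_div]
    refine Finset.sum_congr rfl fun z' _ => ?_
    rw [← Finset.prod_mul_distrib, ← Finset.prod_div_distrib]
  simp only [e1]
  rw [← Finset.mul_sum, Finset.sum_comm]
  have e2 : ∀ z : ι → Bool, ∑ x : Fin s → α, ∑ z' : ι → Bool,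
      ∏ j, (pz q f z (x j) * pz q f z' (x j) / q (x j)) =
      ∑ z' : ι → Bool, (1 + ∑ b, sg (z b) * sg (z' b) * m b) ^ s := by
    intro z
    rw [Finset.sum_comm]
    refine Finset.sum_congr rfl fun z' _ => ?_
    rw [← pz_inner hq0 hq1 hO hB hZ z z', Fintype.sum_pow]
  simp only [e2]
  have e3 : ∀ z z' : ι → Bool, (1 + ∑ b, sg (z b) * sg (z' b) * m b) ^ s ≤
      ∏ b, Real.exp (sg (z b) * sg (z' b) * (s * m b)) := by
    intro z z'
    have h1 : 0 ≤ 1 + ∑ b, sg (z b) * sg (z' b) * m b := by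
      rw [← pz_inner hq0 hq1 hO hB hZ z z']
      exact Finset.sum_nonneg fun i _ => div_nonneg (mul_nonneg (pz_nonneg hq0 hO hB z i)
        (pz_nonneg hq0 hO hB z' i)) (hq0 i)
    calc (1 + ∑ b, sg (z b) * sg (z' b) * m b) ^ s
        ≤ (Real.exp (∑ b, sg (z b) * sg (z' b) * m b)) ^ s := by
          gcongr
          rw [add_comm]
          exact Real.add_one_le_exp _
      _ = Real.exp (∑ b, sg (z b) * sg (z' b) * (s * m b)) := by
          rw [← Real.exp_nat_mul, Finset.mul_sum]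
          congr 1
          exact Finset.sum_congr rfl fun b _ => by ring
      _ = _ := Real.exp_sum _ _
  have e4 : ∀ z : ι → Bool, ∑ z' : ι → Bool, ∏ b, Real.exp (sg (z b) * sg (z' b) * (s * m b)) =
      N * ∏ b, Real.cosh (s * m b) := by
    intro z
    have h1 : ∑ z' : ι → Bool, ∏ b, Real.exp (sg (z b) * sg (z' b) * (s * m b)) =
        ∏ b, ∑ u : Bool, Real.exp (sg (z b) * sg u * (s * m b)) := by
      rw [Finset.prod_univ_sum]
      rfl
    rw [h1]
    simp only [sum_bool_exp]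
    rw [Finset.prod_mul_distrib, hN]
    congr 1
    simp
  calc N⁻¹ ^ 2 * ∑ z : ι → Bool, ∑ z' : ι → Bool, (1 + ∑ b, sg (z b) * sg (z' b) * m b) ^ s
      ≤ N⁻¹ ^ 2 * ∑ z : ι → Bool, ∑ z' : ι → Bool, ∏ b, Real.exp (sg (z b) * sg (z' b) * (s * m b)) := by
        gcongr with z _ z' _
        exact e3 z z'
    _ = ∏ b, Real.cosh (s * m b) := by
        simp only [e4]
        rw [Finset.sum_const, nsmul_eq_mul, Finset.card_univ, ← hN]
        field_simp
    _ ≤ ∏ b, Real.exp ((s * m b) ^ 2 / 2) := by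
        apply Finset.prod_le_prod
        · intro b _; exact (Real.cosh_pos _).le
        · intro b _; exact Real.cosh_le_exp_half_sq _
    _ = Real.exp (s ^ 2 * (∑ b, m b ^ 2) / 2) := by
        rw [← Real.exp_sum]
        congr 1
        rw [Finset.mul_sum, Finset.sum_div]
        exact Finset.sum_congr rfl fun b _ => by ring

/-- Ingster's method -/
lemma ingster {q : α → ℝ} (hq0 : ∀ a, 0 ≤ q a) (hq1 : ∑ a, q a = 1) {f : ι → α → ℝ}
    (hO : ∀ b b' i, b ≠ b' → f b i * f b' i = 0)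
    (hB : ∀ b i, |f b i| ≤ q i) (hZ : ∀ b, ∑ i, f b i = 0) (s : ℕ) (φ : (Fin s → α) → ℝ)
    (hφ : ∀ x, 0 ≤ φ x ∧ φ x ≤ 1) (h1 : 2 / 3 ≤ Ex q s φ) (h2 : ∀ z, Ex (pz q f z) s φ ≤ 1 / 3) :
    1 / 9 ≤ Real.exp (s ^ 2 * (∑ b, (∑ i, f b i ^ 2 / q i) ^ 2) / 2) - 1 := by
  set N : ℝ := (Fintype.card (ι → Bool) : ℝ) with hN
  have hNpos : 0 < N := by rw [hN]; exact_mod_cast Fintype.card_pos
  set Q : (Fin s → α) → ℝ := fun x => ∏ j, q (x j) with hQ
  set P : (Fin s → α) → ℝ := fun x => N⁻¹ * ∑ z : ι → Bool, ∏ j, pz q f z (x j) with hP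
  have hQ0 : ∀ x, 0 ≤ Q x := fun x => Finset.prod_nonneg fun j _ => hq0 _
  have hsumQ : ∑ x, Q x = 1 := by
    rw [hQ, ← Fintype.sum_pow, hq1, one_pow]
  have hsumP : ∑ x, P x = 1 := by
    rw [hP, ← Finset.mul_sum, Finset.sum_comm]
    have : ∀ z : ι → Bool, ∑ x : Fin s → α, ∏ j, pz q f z (x j) = 1 := by
      intro z; rw [← Fintype.sum_pow, pz_sum hq1 hZ, one_pow]
    simp only [this, Finset.sum_const, nsmul_eq_mul, Finset.card_univ, ← hN]
    field_simp
  have hPQ : ∀ x, Q x = 0 → P x = 0 := by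
    intro x hx
    rw [hQ] at hx
    obtain ⟨j, _, hj⟩ := Finset.prod_eq_zero_iff.mp hx
    rw [hP]
    have : ∀ z : ι → Bool, ∏ j, pz q f z (x j) = 0 := by
      intro z
      apply Finset.prod_eq_zero (Finset.mem_univ j)
      have h := pz_abs hq0 hO hB z (x j)
      rw [hj] at h
      unfold pz
      rw [abs_nonpos_iff.mp h, hj, add_zero]
    simp [this]
  have hmix := mixture_bound hq0 hq1 hO hB hZ s
  have hPφ : ∑ x, P x * φ x ≤ 1 / 3 := by
    have e : ∑ x, P x * φ x = N⁻¹ * ∑ z : ι → Bool, Ex (pz q f z) s φ := by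
      rw [hP]
      unfold Ex
      simp only [mul_assoc, Finset.sum_mul]
      rw [← Finset.mul_sum, Finset.sum_comm]
    rw [e]
    calc N⁻¹ * ∑ z : ι → Bool, Ex (pz q f z) s φ ≤ N⁻¹ * ∑ z : ι → Bool, (1 / 3) := by
          gcongr with z _
          exact h2 z
      _ = 1 / 3 := by
          rw [Finset.sum_const, nsmul_eq_mul, Finset.card_univ, ← hN]
          field_simp
  have hdiff : 1 / 3 ≤ ∑ x, (Q x - P x) * φ x := by
    have : ∑ x, (Q x - P x) * φ x = Ex q s φ - ∑ x, P x * φ x := by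
      unfold Ex
      rw [← Finset.sum_sub_distrib]
      exact Finset.sum_congr rfl fun x _ => by ring
    rw [this]; linarith
  have hCS := Finset.sum_sq_le_sum_mul_sum_of_sq_le_mul Finset.univ
    (r := fun x => (Q x - P x) * φ x) (f := fun x => (Q x - P x) ^ 2 / Q x)
    (g := fun x => Q x * φ x ^ 2)
    (fun x _ => div_nonneg (sq_nonneg _) (hQ0 x)) (fun x _ => mul_nonneg (hQ0 x) (sq_nonneg _))
    (fun x _ => by
      rcases (hQ0 x).eq_or_lt with h | h
      · simp [hPQ x h.symm, ← h]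
      · have := h.ne'
        apply le_of_eq
        field_simp)
  have hg : ∑ x, Q x * φ x ^ 2 ≤ 1 := by
    calc ∑ x, Q x * φ x ^ 2 ≤ ∑ x, Q x * 1 := by
          refine Finset.sum_le_sum fun x _ => mul_le_mul_of_nonneg_left ?_ (hQ0 x)
          have := hφ x
          nlinarith [this.1, this.2]
      _ = 1 := by simp [hsumQ]
  have hf : ∑ x, (Q x - P x) ^ 2 / Q x = ∑ x, P x ^ 2 / Q x - 1 := by
    have e : ∀ x, (Q x - P x) ^ 2 / Q x = Q x - 2 * P x + P x ^ 2 / Q x := by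
      intro x
      rcases (hQ0 x).eq_or_lt with h | h
      · simp [hPQ x h.symm, ← h]
      · have := h.ne'
        field_simp
        ring
    simp only [e, Finset.sum_add_distrib, Finset.sum_sub_distrib, ← Finset.mul_sum, hsumQ, hsumP]
    ring
  have hf0 : 0 ≤ ∑ x, (Q x - P x) ^ 2 / Q x :=
    Finset.sum_nonneg fun x _ => div_nonneg (sq_nonneg _) (hQ0 x)
  have hfin : (1 / 3 : ℝ) ^ 2 ≤ ∑ x, (Q x - P x) ^ 2 / Q x := by
    calc (1 / 3 : ℝ) ^ 2 ≤ (∑ x, (Q x - P x) * φ x) ^ 2 := by gcongr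
      _ ≤ (∑ x, (Q x - P x) ^ 2 / Q x) * ∑ x, Q x * φ x ^ 2 := hCS
      _ ≤ (∑ x, (Q x - P x) ^ 2 / Q x) * 1 := by gcongr
      _ = _ := mul_one _
  rw [hf] at hfin
  have : ∑ x, P x ^ 2 / Q x ≤ Real.exp (s ^ 2 * (∑ b, (∑ i, f b i ^ 2 / q i) ^ 2) / 2) := hmix
  linarith

end LowerGeneral


section Lower

/-- pairing the entries so that partners are comparable -/
lemma pairing {n : ℕ} (q : Fin n → ℝ) (hq0 : ∀ i, 0 ≤ q i) (c : ℝ) (hc : 0 ≤ c) :
    ∀ (k : ℕ) (U : Finset (Fin n)), U.card = k → ∃ J : Finset (Fin n), ∃ π : Fin n → Fin n, J ⊆ U ∧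
      (∀ b ∈ J, π b ∈ U ∧ π b ∉ J ∧ q b ≤ q (π b)) ∧ (∀ b ∈ J, ∀ b' ∈ J, π b = π b' → b = b') ∧
      ∀ G : ℝ, 0 ≤ G → (∀ i ∈ U, min (q i) c ≤ G) →
        ∑ i ∈ U, min (q i) c ≤ G + 2 * ∑ b ∈ J, min (q b) c := by
  intro k
  induction k using Nat.strong_induction_on with
  | _ k ih =>
    intro U hU
    rcases U.eq_empty_or_nonempty with rfl | hne
    · exact ⟨∅, id, by simp, by simp, by simp, fun G hG _ => by simpa using hG⟩
    obtain ⟨x, hxU, hx⟩ := Finset.exists_max_image U q hne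
    rcases (U.erase x).eq_empty_or_nonempty with h1 | hne1
    · refine ⟨∅, id, by simp, by simp, by simp, fun G hG hb => ?_⟩
      have : U = {x} := by
        rw [← Finset.insert_erase hxU, h1]
        rfl
      rw [this]
      simpa using hb x hxU
    obtain ⟨y, hyU1, hy⟩ := Finset.exists_max_image (U.erase x) q hne1
    have hyU : y ∈ U := Finset.mem_of_mem_erase hyU1
    have hyx : y ≠ x := Finset.ne_of_mem_erase hyU1
    set U2 := (U.erase x).erase y with hU2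
    have hU2c : U2.card < k := by
      rw [← hU]
      calc U2.card ≤ (U.erase x).card := Finset.card_erase_le
        _ < U.card := Finset.card_erase_lt_of_mem hxU
    have hU2U : U2 ⊆ U := (Finset.erase_subset _ _).trans (Finset.erase_subset _ _)
    have hxU2 : x ∉ U2 := by simp [hU2]
    have hyU2 : y ∉ U2 := by simp [hU2]
    obtain ⟨J', π', hJ', hπ', hinj', hsum'⟩ := ih U2.card hU2c U2 rfl
    have hyJ' : y ∉ J' := fun h => hyU2 (hJ' h)
    have hxJ' : x ∉ J' := fun h => hxU2 (hJ' h)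
    have hval : ∀ b ∈ J', Function.update π' y x b = π' b := by
      intro b hb
      rw [Function.update_of_ne]
      rintro rfl
      exact hyJ' hb
    refine ⟨insert y J', Function.update π' y x, ?_, ?_, ?_, ?_⟩
    · exact Finset.insert_subset hyU (hJ'.trans hU2U)
    · intro b hb
      rcases Finset.mem_insert.mp hb with rfl | hb
      · rw [Function.update_self]
        refine ⟨hxU, ?_, hx b hyU⟩
        rw [Finset.mem_insert, not_or]
        exact ⟨hyx.symm, hxJ'⟩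
      · rw [hval b hb]
        obtain ⟨h1, h2, h3⟩ := hπ' b hb
        refine ⟨hU2U h1, ?_, h3⟩
        rw [Finset.mem_insert, not_or]
        refine ⟨?_, h2⟩
        intro h
        rw [h] at h1
        exact hyU2 h1
    · intro b hb b' hb' heq
      rcases Finset.mem_insert.mp hb with h1 | h1 <;> rcases Finset.mem_insert.mp hb' with h2 | h2
      · rw [h1, h2]
      · rw [h1, Function.update_self, hval b' h2] at heq
        exact absurd (heq ▸ (hπ' b' h2).1) hxU2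
      · rw [h2, Function.update_self, hval b h1] at heq
        exact absurd (heq ▸ (hπ' b h1).1) hxU2
      · rw [hval b h1, hval b' h2] at heq
        exact hinj' b h1 b' h2 heq
    · intro G hG hb
      have hxG := hb x hxU
      rw [Finset.sum_insert hyJ', ← Finset.add_sum_erase U _ hxU,
        ← Finset.add_sum_erase (U.erase x) _ hyU1, ← hU2]
      have h0 : 0 ≤ min (q y) c := le_min (hq0 y) hc
      have := hsum' (min (q y) c) h0 (fun i hi => by
        have hi1 : i ∈ U.erase x := Finset.mem_of_mem_erase hi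
        exact min_le_min_right c (hy i hi1))
      linarith


/-- the `1/ε²` lower bound -/
lemma lower_basic {n : ℕ} {q : Fin n → ℝ} (hq : IsDist q) {ε : ℝ} (hε : 0 < ε)
    (hfar : ∃ p, IsDist p ∧ ε < dH p q) {s : ℕ} {φ : (Fin s → Fin n) → ℝ}
    (hφ : IsTester q ε s φ) : 1 / 288 * (1 / ε ^ 2) ≤ s := by
  obtain ⟨p0, hp0, hp0far⟩ := hfar
  -- choose `p` on the segment with `ε < dH p q ≤ 2 ε`
  obtain ⟨p, hp, hp1, hp2⟩ : ∃ p, IsDist p ∧ ε < dH p q ∧ dH p q ≤ 2 * ε := by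
    set γ : ℝ → ℝ := fun t => dH (fun i => (1 - t) * q i + t * p0 i) q with hγ
    have hcont : Continuous γ := by
      rw [hγ]
      unfold dH
      fun_prop
    have h0 : γ 0 = 0 := by simp [hγ, dH]
    have h1 : γ 1 = dH p0 q := by simp [hγ]
    have hmem : min (2 * ε) (dH p0 q) ∈ Set.Icc (γ 0) (γ 1) := by
      rw [h0, h1]
      exact ⟨le_min (by linarith) (by linarith), min_le_right _ _⟩
    obtain ⟨t, ht, hγt⟩ := intermediate_value_Icc (zero_le_one) hcont.continuousOn hmem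
    refine ⟨fun i => (1 - t) * q i + t * p0 i, ⟨fun i => ?_, ?_⟩, ?_, ?_⟩
    · have h1 := hq.1 i
      have h2 := hp0.1 i
      have h3 : 0 ≤ 1 - t := by linarith [ht.2]
      have h4 := ht.1
      positivity
    · rw [Finset.sum_add_distrib, ← Finset.mul_sum, ← Finset.mul_sum, hq.2, hp0.2]; ring
    · have : γ t = min (2 * ε) (dH p0 q) := hγt
      rw [hγ] at this
      simp only at this
      rw [this]
      exact lt_min (by linarith) hp0far
    · have : γ t = min (2 * ε) (dH p0 q) := hγt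
      rw [hγ] at this
      simp only at this
      rw [this]
      exact min_le_left _ _
  -- the Bhattacharyya coefficient
  set a : (Fin s → Fin n) → ℝ := fun x => ∏ j, √(q (x j)) with ha
  set b : (Fin s → Fin n) → ℝ := fun x => ∏ j, √(p (x j)) with hb
  have ha2 : ∀ x, a x ^ 2 = ∏ j, q (x j) := fun x => by
    rw [ha]; simp only; rw [← Finset.prod_pow]
    exact Finset.prod_congr rfl fun j _ => Real.sq_sqrt (hq.1 _)
  have hb2 : ∀ x, b x ^ 2 = ∏ j, p (x j) := fun x => by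
    rw [hb]; simp only; rw [← Finset.prod_pow]
    exact Finset.prod_congr rfl fun j _ => Real.sq_sqrt (hp.1 _)
  set BC := ∑ i, √(q i) * √(p i) with hBC
  have hab : ∑ x, a x * b x = BC ^ s := by
    rw [hBC, Fintype.sum_pow]
    refine Finset.sum_congr rfl fun x _ => ?_
    rw [ha, hb, ← Finset.prod_mul_distrib]
  have hsa : ∑ x, a x ^ 2 = 1 := by
    simp only [ha2]
    rw [← Fintype.sum_pow, hq.2, one_pow]
  have hsb : ∑ x, b x ^ 2 = 1 := by
    simp only [hb2]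
    rw [← Fintype.sum_pow, hp.2, one_pow]
  have hBC0 : 0 ≤ BC := Finset.sum_nonneg fun i _ => mul_nonneg (Real.sqrt_nonneg _) (Real.sqrt_nonneg _)
  have hBC1 : 1 - 4 * ε ^ 2 ≤ BC := by
    have h1 : ∑ i, (√(p i) - √(q i)) ^ 2 = 2 - 2 * BC := by
      have : ∀ i, (√(p i) - √(q i)) ^ 2 = p i + q i - 2 * (√(q i) * √(p i)) := by
        intro i
        have h1 := Real.sq_sqrt (hp.1 i)
        have h2 := Real.sq_sqrt (hq.1 i)
        nlinarith
      simp only [this, Finset.sum_sub_distrib, Finset.sum_add_distrib, ← Finset.mul_sum, hp.2, hq.2]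
      rw [hBC]; ring
    have h2 : dH p q ^ 2 ≤ (2 * ε) ^ 2 := by
      have : 0 ≤ dH p q := by unfold dH; positivity
      gcongr
    have h3 : dH p q ^ 2 = (2 - 2 * BC) / 2 := by
      unfold dH
      rw [mul_pow, div_pow, Real.sq_sqrt (by norm_num), Real.sq_sqrt, h1]
      · ring
      · exact Finset.sum_nonneg fun i _ => sq_nonneg _
    nlinarith
  have hBCs : 1 - 4 * s * ε ^ 2 ≤ BC ^ s := by
    have h := one_add_mul_le_pow (a := BC - 1) (by linarith) s
    have e : 1 + (BC - 1) = BC := by ring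
    rw [e] at h
    have : (s : ℝ) * (4 * ε ^ 2) ≥ s * (1 - BC) := by gcongr; linarith
    linarith
  obtain ⟨hφ01, hφq, hφp⟩ := hφ
  have hφp' := hφp p hp hp1
  have hdiff : 1 / 3 ≤ ∑ x, (a x - b x) * ((a x + b x) * φ x) := by
    have : ∑ x, (a x - b x) * ((a x + b x) * φ x) = acceptProb φ q - acceptProb φ p := by
      unfold acceptProb
      rw [← Finset.sum_sub_distrib]
      refine Finset.sum_congr rfl fun x _ => ?_
      rw [← ha2, ← hb2]; ring
    rw [this]; linarith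
  have hCS := Finset.sum_mul_sq_le_sq_mul_sq Finset.univ (fun x => a x - b x) (fun x => (a x + b x) * φ x)
  have h1 : ∑ x, (a x - b x) ^ 2 = 2 - 2 * BC ^ s := by
    have : ∀ x, (a x - b x) ^ 2 = a x ^ 2 + b x ^ 2 - 2 * (a x * b x) := fun x => by ring
    simp only [this, Finset.sum_sub_distrib, Finset.sum_add_distrib, ← Finset.mul_sum, hsa, hsb, hab]
    ring
  have h2 : ∑ x, ((a x + b x) * φ x) ^ 2 ≤ 4 := by
    calc ∑ x, ((a x + b x) * φ x) ^ 2 ≤ ∑ x, (2 * a x ^ 2 + 2 * b x ^ 2) := by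
          refine Finset.sum_le_sum fun x _ => ?_
          have h3 := hφ01 x
          have h4 : φ x ^ 2 ≤ 1 := by nlinarith [h3.1, h3.2]
          calc ((a x + b x) * φ x) ^ 2 = (a x + b x) ^ 2 * φ x ^ 2 := by ring
            _ ≤ (a x + b x) ^ 2 * 1 := by gcongr
            _ ≤ 2 * a x ^ 2 + 2 * b x ^ 2 := by nlinarith [sq_nonneg (a x - b x)]
      _ = 4 := by
          rw [Finset.sum_add_distrib, ← Finset.mul_sum, ← Finset.mul_sum, hsa, hsb]; norm_num
  have h3 : 0 ≤ ∑ x, (a x - b x) ^ 2 := Finset.sum_nonneg fun x _ => sq_nonneg _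
  have h4 : (1 / 3 : ℝ) ^ 2 ≤ (2 - 2 * BC ^ s) * 4 := by
    calc (1 / 3 : ℝ) ^ 2 ≤ (∑ x, (a x - b x) * ((a x + b x) * φ x)) ^ 2 := by gcongr
      _ ≤ (∑ x, (a x - b x) ^ 2) * ∑ x, ((a x + b x) * φ x) ^ 2 := hCS
      _ ≤ (∑ x, (a x - b x) ^ 2) * 4 := by gcongr
      _ = _ := by rw [h1]
  have h5 : 1 / 288 ≤ s * ε ^ 2 := by nlinarith
  have hε2 : 0 < ε ^ 2 := by positivity
  rw [mul_one_div, div_le_iff₀ hε2]
  exact h5

end Lower


section Assembly

lemma effSupp_le {n : ℕ} {q : Fin n → ℝ} {t : ℝ} {A : Finset (Fin n)} (hA : A.Nonempty)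
    (h : 1 - t ≤ ∑ i ∈ A, q i) : effSupp q t ≤ A.card :=
  Nat.sInf_le ⟨A, hA, rfl, h⟩

/-- the main lower bound when the effective support has at least two elements -/
lemma lower_main {n : ℕ} {q : Fin n → ℝ} (hq : IsDist q) {ε : ℝ} (hε : 0 < ε)
    (hL2 : 2 ≤ effSupp q (52 * ε ^ 2)) {s : ℕ} {φ : (Fin s → Fin n) → ℝ}
    (hφ : IsTester q ε s φ) : 1 / 120 * (√(effSupp q (52 * ε ^ 2)) / ε ^ 2) ≤ s := by
  set L : ℝ := (effSupp q (52 * ε ^ 2) : ℝ) with hL
  have hL2' : (2 : ℝ) ≤ L := by rw [hL]; exact_mod_cast hL2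
  set c : ℝ := 52 * ε ^ 2 / L with hc
  have hc0 : 0 < c := by positivity
  have hcL : c * L = 52 * ε ^ 2 := by rw [hc]; field_simp
  have hc26 : c ≤ 26 * ε ^ 2 := by
    rw [hc, div_le_iff₀ (by linarith)]
    have : 0 < ε ^ 2 := by positivity
    nlinarith
  obtain ⟨i0⟩ : Nonempty (Fin n) := by
    by_contra h
    have h1 := hq.2
    rw [not_nonempty_iff] at h
    rw [Finset.univ_eq_empty, Finset.sum_empty] at h1
    norm_num at h1
  have hT1 : 52 * ε ^ 2 < 1 := by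
    by_contra h
    have h1 : effSupp q (52 * ε ^ 2) ≤ ({i0} : Finset (Fin n)).card := by
      apply effSupp_le (by simp)
      rw [Finset.sum_singleton]
      have := hq.1 i0
      linarith
    simp at h1
    omega
  obtain ⟨J, π, -, hπ, hinj, hsum⟩ := pairing q hq.1 c hc0.le _ Finset.univ rfl
  set S := ∑ b ∈ J, min (q b) c with hS
  have hSlow : 13 * ε ^ 2 ≤ S := by
    have h1 := hsum c hc0.le (fun i _ => min_le_right _ _)
    set A := Finset.univ.filter (fun i => c ≤ q i) with hA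
    have hsplit : ∑ i, min (q i) c = A.card * c + ∑ i ∈ Aᶜ, q i := by
      rw [← Finset.sum_add_sum_compl A]
      congr 1
      · rw [Finset.sum_congr rfl (g := fun _ => c) (fun i hi => min_eq_right (Finset.mem_filter.mp hi).2),
          Finset.sum_const, nsmul_eq_mul]
      · refine Finset.sum_congr rfl fun i hi => min_eq_left ?_
        rw [Finset.mem_compl, hA, Finset.mem_filter, not_and] at hi
        exact (not_le.mp (hi (Finset.mem_univ i))).le
    have hcompl : ∑ i ∈ A, q i + ∑ i ∈ Aᶜ, q i = 1 := by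
      rw [Finset.sum_add_sum_compl]; exact hq.2
    have hcn : 0 ≤ ∑ i ∈ Aᶜ, q i := Finset.sum_nonneg fun i _ => hq.1 i
    have hε2 : 0 < ε ^ 2 := by positivity
    by_cases hcard : L ≤ A.card
    · have h2 : c * L ≤ A.card * c := by rw [mul_comm]; gcongr
      linarith
    · push Not at hcard
      have h2 : ∑ i ∈ A, q i < 1 - 52 * ε ^ 2 := by
        rcases A.eq_empty_or_nonempty with h | h
        · rw [h, Finset.sum_empty]; linarith
        · by_contra hcon
          push Not at hcon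
          have := effSupp_le h hcon
          have h3 : L ≤ A.card := by rw [hL]; exact_mod_cast this
          linarith
      have h3 : 0 ≤ (A.card : ℝ) * c := by positivity
      linarith
  have hε2 : 0 < ε ^ 2 := by positivity
  have hSpos : 0 < S := by linarith
  set r : ℝ := 13 * ε ^ 2 / S with hr
  have hr0 : 0 < r := by positivity
  have hr1 : r ≤ 1 := by rw [hr, div_le_one hSpos]; exact hSlow
  set w : Fin n → ℝ := fun b => if b ∈ J then min (q b) c * r else 0 with hw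
  have hwJ : ∀ b ∈ J, w b = min (q b) c * r := fun b hb => by rw [hw]; simp [hb]
  have hwn : ∀ b, b ∉ J → w b = 0 := fun b hb => by rw [hw]; simp [hb]
  have hw0 : ∀ b, 0 ≤ w b := by
    intro b
    by_cases hb : b ∈ J
    · rw [hwJ b hb]; exact mul_nonneg (le_min (hq.1 b) hc0.le) hr0.le
    · rw [hwn b hb]
  have hwq : ∀ b, w b ≤ q b := by
    intro b
    by_cases hb : b ∈ J
    · rw [hwJ b hb]
      calc min (q b) c * r ≤ min (q b) c * 1 := by
            apply mul_le_mul_of_nonneg_left hr1 (le_min (hq.1 b) hc0.le)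
        _ ≤ q b := by rw [mul_one]; exact min_le_left _ _
    · rw [hwn b hb]; exact hq.1 b
  have hwc : ∀ b, w b ≤ c := by
    intro b
    by_cases hb : b ∈ J
    · rw [hwJ b hb]
      calc min (q b) c * r ≤ min (q b) c * 1 := by
            apply mul_le_mul_of_nonneg_left hr1 (le_min (hq.1 b) hc0.le)
        _ ≤ c := by rw [mul_one]; exact min_le_right _ _
    · rw [hwn b hb]; exact hc0.le
  have hwsum : ∑ b, w b = 13 * ε ^ 2 := by
    rw [hw, Finset.sum_ite_mem, Finset.univ_inter, ← Finset.sum_mul, ← hS, hr]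
    field_simp
  set v : Fin n → ℝ := fun b => √(w b * q b) with hv
  have hv0 : ∀ b, 0 ≤ v b := fun b => Real.sqrt_nonneg _
  have hv2 : ∀ b, v b ^ 2 = w b * q b := fun b => Real.sq_sqrt (mul_nonneg (hw0 b) (hq.1 b))
  have hvq : ∀ b, v b ≤ q b := by
    intro b
    rw [hv]
    apply Real.sqrt_le_iff.mpr
    refine ⟨hq.1 b, ?_⟩
    rw [sq]
    exact mul_le_mul_of_nonneg_right (hwq b) (hq.1 b)
  have hvn : ∀ b, b ∉ J → v b = 0 := fun b hb => by rw [hv]; simp [hwn b hb]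
  set f : Fin n → Fin n → ℝ := fun b i =>
    v b * ((if i = π b then 1 else 0) - (if i = b then 1 else 0)) with hf
  have hfn : ∀ b, b ∉ J → ∀ i, f b i = 0 := fun b hb i => by rw [hf]; simp [hvn b hb]
  have hπb : ∀ b ∈ J, π b ≠ b := fun b hb h => (hπ b hb).2.1 (by rw [h]; exact hb)
  have hf0 : ∀ b ∈ J, ∀ i, i ≠ b → i ≠ π b → f b i = 0 := by
    intro b hb i h1 h2; rw [hf]; simp [h1, h2]
  have hfb : ∀ b ∈ J, f b b = - v b := by
    intro b hb
    rw [hf]; simp [(hπb b hb).symm]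
  have hfπ : ∀ b ∈ J, f b (π b) = v b := by
    intro b hb
    rw [hf]; simp [hπb b hb]
  have hO : ∀ b b' i, b ≠ b' → f b i * f b' i = 0 := by
    intro b b' i hne
    by_cases hb : b ∈ J
    · by_cases hb' : b' ∈ J
      · by_cases h1 : i = b
        · have h2 : i ≠ b' := fun h => hne (h1.symm.trans h)
          have h3 : i ≠ π b' := fun h => (hπ b' hb').2.1 (by rw [← h, h1]; exact hb)
          rw [hf0 b' hb' i h2 h3, mul_zero]
        · by_cases h2 : i = π b
          · have h3 : i ≠ b' := fun h => (hπ b hb).2.1 (by rw [← h2, h]; exact hb')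
            have h4 : i ≠ π b' := fun h => hne (hinj b hb b' hb' (h2.symm.trans h))
            rw [hf0 b' hb' i h3 h4, mul_zero]
          · rw [hf0 b hb i h1 h2, zero_mul]
      · rw [hfn b' hb' i, mul_zero]
    · rw [hfn b hb i, zero_mul]
  have hB : ∀ b i, |f b i| ≤ q i := by
    intro b i
    by_cases hb : b ∈ J
    · by_cases h1 : i = b
      · rw [h1, hfb b hb, abs_neg, abs_of_nonneg (hv0 b)]; exact hvq b
      · by_cases h2 : i = π b
        · rw [h2, hfπ b hb, abs_of_nonneg (hv0 b)]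
          exact (hvq b).trans (hπ b hb).2.2
        · rw [hf0 b hb i h1 h2, abs_zero]; exact hq.1 i
    · rw [hfn b hb i, abs_zero]; exact hq.1 i
  have hZ : ∀ b, ∑ i, f b i = 0 := by
    intro b
    rw [hf]
    simp only
    rw [← Finset.mul_sum, Finset.sum_sub_distrib]
    simp
  have hm : ∀ b, ∑ i, f b i ^ 2 / q i ≤ 2 * w b := by
    intro b
    by_cases hb : b ∈ J
    · have h1 : ∑ i, f b i ^ 2 / q i = f b (π b) ^ 2 / q (π b) + f b b ^ 2 / q b := by
        rw [Fintype.sum_eq_add (π b) b (hπb b hb) (fun i hi => by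
          rw [hf0 b hb i hi.2 hi.1]; simp)]
      rw [h1, hfb b hb, hfπ b hb, neg_sq, hv2]
      rcases (hq.1 b).eq_or_lt with h | h
      · rw [← h]; simp; exact hw0 b
      · have h2 := (hπ b hb).2.2
        have h3 : w b * q b / q (π b) ≤ w b * q b / q b := by
          apply div_le_div_of_nonneg_left (mul_nonneg (hw0 b) (hq.1 b)) h h2
        have h4 : w b * q b / q b = w b := by field_simp
        linarith
    · rw [Finset.sum_eq_zero (fun i _ => by rw [hfn b hb i]; simp)]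
      have := hw0 b
      linarith
  have hm0 : ∀ b, 0 ≤ ∑ i, f b i ^ 2 / q i := fun b =>
    Finset.sum_nonneg fun i _ => div_nonneg (sq_nonneg _) (hq.1 i)
  have hmsq : ∑ b, (∑ i, f b i ^ 2 / q i) ^ 2 ≤ 2704 * ε ^ 4 / L := by
    calc ∑ b, (∑ i, f b i ^ 2 / q i) ^ 2 ≤ ∑ b, 4 * c * w b := by
          refine Finset.sum_le_sum fun b _ => ?_
          have h1 := hm b
          have h2 := hm0 b
          have h3 := hwc b
          have h4 := hw0 b
          calc (∑ i, f b i ^ 2 / q i) ^ 2 ≤ (2 * w b) ^ 2 := by gcongr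
            _ = 4 * w b * w b := by ring
            _ ≤ 4 * c * w b := by gcongr
      _ = 2704 * ε ^ 4 / L := by
          rw [← Finset.mul_sum, hwsum, hc]; ring
  -- every perturbation is far
  have hfar : ∀ z : Fin n → Bool, ε < dH (pz q f z) q := by
    intro z
    have hpb : ∀ b ∈ J, pz q f z b = q b - sg (z b) * v b := by
      intro b hb
      unfold pz
      rw [Fintype.sum_eq_single b (fun b' hb' => by
        have h1 := hO b' b b hb'
        rw [hfb b hb] at h1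
        rcases mul_eq_zero.mp h1 with h | h
        · rw [h, mul_zero]
        · have hv' : v b = 0 := by linarith
          by_cases hb'J : b' ∈ J
          · rw [hf0 b' hb'J b hb'.symm (fun h => (hπ b' hb'J).2.1 (h ▸ hb)), mul_zero]
          · rw [hfn b' hb'J b, mul_zero])]
      rw [hfb b hb]; ring
    have hterm : ∀ b ∈ J, w b ≤ 6 * (√(pz q f z b) - √(q b)) ^ 2 := by
      intro b hb
      rcases (hq.1 b).eq_or_lt with h | h
      · have : w b ≤ 0 := by rw [h]; exact hwq b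
        refine this.trans (by positivity)
      · have hp0 := pz_nonneg hq.1 hO hB z b
        have h1 := Real.sq_sqrt hp0
        have h2 := Real.sq_sqrt (hq.1 b)
        have h3 := Real.sqrt_nonneg (pz q f z b)
        have h4 := Real.sqrt_nonneg (q b)
        set u := √(pz q f z b) with hu
        set t := √(q b) with ht
        have h5 : (u ^ 2 - t ^ 2) ^ 2 = v b ^ 2 := by
          rw [h1, h2, hpb b hb]
          have := sg_sq (z b)
          calc (q b - sg (z b) * v b - q b) ^ 2 = sg (z b) ^ 2 * v b ^ 2 := by ring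
            _ = v b ^ 2 := by rw [this, one_mul]
        have h6 : pz q f z b ≤ 2 * q b := by
          have h7 := (abs_le.mp (pz_abs hq.1 hO hB z b)).2
          unfold pz
          linarith
        have h8 : (u + t) ^ 2 ≤ 6 * q b := by
          nlinarith [sq_nonneg (u - t)]
        have h9 : w b * q b ≤ (6 * (u - t) ^ 2) * q b := by
          calc w b * q b = v b ^ 2 := (hv2 b).symm
            _ = (u - t) ^ 2 * (u + t) ^ 2 := by rw [← h5]; ring
            _ ≤ (u - t) ^ 2 * (6 * q b) := by gcongr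
            _ = _ := by ring
        exact le_of_mul_le_mul_right h9 h
    have hsumJ : 13 * ε ^ 2 ≤ 6 * ∑ i, (√(pz q f z i) - √(q i)) ^ 2 := by
      calc 13 * ε ^ 2 = ∑ b, w b := hwsum.symm
        _ = ∑ b ∈ J, w b := by
            rw [← Finset.sum_subset (Finset.subset_univ J)]
            intro b _ hb; exact hwn b hb
        _ ≤ ∑ b ∈ J, 6 * (√(pz q f z b) - √(q b)) ^ 2 := Finset.sum_le_sum hterm
        _ ≤ ∑ b, 6 * (√(pz q f z b) - √(q b)) ^ 2 :=
            Finset.sum_le_sum_of_subset_of_nonneg (Finset.subset_univ _) (fun i _ _ => by positivity)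
        _ = _ := by rw [← Finset.mul_sum]
    unfold dH
    have h0 : 0 ≤ ∑ i, (√(pz q f z i) - √(q i)) ^ 2 := Finset.sum_nonneg fun i _ => sq_nonneg _
    apply lt_of_pow_lt_pow_left₀ 2 (by positivity)
    rw [mul_pow, div_pow, Real.sq_sqrt (by norm_num), Real.sq_sqrt h0]
    nlinarith
  obtain ⟨hφ01, hφq, hφp⟩ := hφ
  have hing := ingster hq.1 hq.2 hO hB hZ s φ hφ01 hφq (fun z => by
    have := hφp (pz q f z) ⟨pz_nonneg hq.1 hO hB z, pz_sum hq.2 hZ z⟩ (hfar z)
    unfold acceptProb at this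
    unfold Ex
    linarith)
  -- conclude
  by_contra hcon
  push Not at hcon
  have h1 : (s : ℝ) ^ 2 * ε ^ 4 < L / 14400 := by
    have h2 : (s : ℝ) * ε ^ 2 < √L / 120 := by
      have : (s : ℝ) < √L / 120 / ε ^ 2 := by
        calc (s : ℝ) < 1 / 120 * (√L / ε ^ 2) := hcon
          _ = √L / 120 / ε ^ 2 := by ring
      rwa [lt_div_iff₀ hε2] at this
    have h3 : ((s : ℝ) * ε ^ 2) ^ 2 < (√L / 120) ^ 2 := by gcongr
    rw [div_pow, Real.sq_sqrt (by linarith)] at h3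
    calc (s : ℝ) ^ 2 * ε ^ 4 = ((s : ℝ) * ε ^ 2) ^ 2 := by ring
      _ < _ := h3
      _ = _ := by norm_num
  have h2 : (s : ℝ) ^ 2 * (∑ b, (∑ i, f b i ^ 2 / q i) ^ 2) / 2 < 1 / 10 := by
    calc (s : ℝ) ^ 2 * (∑ b, (∑ i, f b i ^ 2 / q i) ^ 2) / 2 ≤ (s : ℝ) ^ 2 * (2704 * ε ^ 4 / L) / 2 := by
          gcongr
      _ = (s : ℝ) ^ 2 * ε ^ 4 * (1352 / L) := by ring
      _ < (L / 14400) * (1352 / L) := by
          apply mul_lt_mul_of_pos_right h1 (by positivity)
      _ = 1352 / 14400 := by field_simp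
      _ < 1 / 10 := by norm_num
  have h3 : Real.exp ((s : ℝ) ^ 2 * (∑ b, (∑ i, f b i ^ 2 / q i) ^ 2) / 2) < 10 / 9 := by
    set y := (s : ℝ) ^ 2 * (∑ b, (∑ i, f b i ^ 2 / q i) ^ 2) / 2 with hy
    have h4 : 1 - y ≤ Real.exp (-y) := Real.one_sub_le_exp_neg y
    rw [Real.exp_neg] at h4
    have h5 : 0 < Real.exp y := Real.exp_pos y
    have h6 : 9 / 10 < (Real.exp y)⁻¹ := by linarith
    have h7 : 9 / 10 * Real.exp y < 1 := by
      calc 9 / 10 * Real.exp y < (Real.exp y)⁻¹ * Real.exp y := by gcongr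
        _ = 1 := by field_simp
    linarith
  linarith

theorem lower {n : ℕ} {q : Fin n → ℝ} (hq : IsDist q) {ε : ℝ} (hε : 0 < ε)
    (hfar : ∃ p, IsDist p ∧ ε < dH p q) {s : ℕ} {φ : (Fin s → Fin n) → ℝ}
    (hφ : IsTester q ε s φ) : 1 / 288 * (√(effSupp q (52 * ε ^ 2)) / ε ^ 2) ≤ s := by
  have h1 := one_le_effSupp hq (t := 52 * ε ^ 2) (by positivity)
  rcases h1.eq_or_lt with h | h
  · rw [← h]
    simpa using lower_basic hq hε hfar hφ
  · have h2 := lower_main hq hε h hφ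
    refine le_trans ?_ h2
    gcongr
    norm_num

end Assembly


/-- **Instance-specific sample complexity of Hellinger identity testing.**
There are absolute constants such that for every distribution `q` on `[n]` and `0 < ε ≤ 1`:
the least number `Ψ_H(q, ε)` of samples is attained by a tester, it is at most
`C₁ √N(q, c₂ ε²) / ε²`, and, as soon as some distribution is at distance more than `ε` from `q`
(otherwise `Ψ_H(q, ε) = 0`), it is at least `c₁ √N(q, C₂ ε²) / ε²`. -/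
theorem result : ∃ c₁ c₂ C₁ C₂ : ℝ, 0 < c₁ ∧ 0 < c₂ ∧ 0 < C₁ ∧ 0 < C₂ ∧
    ∀ (n : ℕ) (q : Fin n → ℝ), IsDist q → ∀ ε : ℝ, 0 < ε → ε ≤ 1 →
      (∃ φ : (Fin (PsiH q ε) → Fin n) → ℝ, IsTester q ε (PsiH q ε) φ) ∧
      (PsiH q ε : ℝ) ≤ C₁ * (√(effSupp q (c₂ * ε ^ 2)) / ε ^ 2) ∧
      ((∃ p, IsDist p ∧ ε < dH p q) →
        c₁ * (√(effSupp q (C₂ * ε ^ 2)) / ε ^ 2) ≤ (PsiH q ε : ℝ)) ∧
      ((¬ ∃ p, IsDist p ∧ ε < dH p q) → PsiH q ε = 0) := by
  refine ⟨1 / 288, 1 / 100, 2002, 52, by norm_num, by norm_num, by norm_num, by norm_num, ?_⟩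
  intro n q hq ε hε hε1
  obtain ⟨s, hs, φ, hφ⟩ := upper hq hε hε1
  have hne : {s | ∃ φ : (Fin s → Fin n) → ℝ, IsTester q ε s φ}.Nonempty := ⟨s, φ, hφ⟩
  have hatt : ∃ φ : (Fin (PsiH q ε) → Fin n) → ℝ, IsTester q ε (PsiH q ε) φ := Nat.sInf_mem hne
  refine ⟨hatt, ?_, ?_, ?_⟩
  · have h1 : PsiH q ε ≤ s := Nat.sInf_le ⟨φ, hφ⟩
    have h2 : (PsiH q ε : ℝ) ≤ s := by exact_mod_cast h1
    have h3 : (1 / 100 : ℝ) * ε ^ 2 = ε ^ 2 / 100 := by ring
    rw [h3]
    exact h2.trans hs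
  · intro hfar
    obtain ⟨ψ, hψ⟩ := hatt
    exact lower hq hε hfar hψ
  · intro hno
    have h0 : (0 : ℕ) ∈ {s | ∃ φ : (Fin s → Fin n) → ℝ, IsTester q ε s φ} := by
      refine ⟨fun _ => 1, fun x => ⟨by norm_num, le_refl _⟩, ?_, ?_⟩
      · unfold acceptProb
        simp
        norm_num
      · intro p hp hfar
        exact absurd ⟨p, hp, hfar⟩ hno
    exact Nat.eq_zero_of_le_zero (Nat.sInf_le h0)

end Pool.Agent.Results.MP_8f5189_lc.HellingerIdentity
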